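import Mathlib

/-!
# Uniform hypergraphs of large girth and large chromatic number

We give the partite amalgamation proof of Nešetřil and Rödl. Large girth is used in the
following form: in every small nonempty set of edges there is an edge which meets the union of the
others (and of a given set with at most one point) in at most one point.
-/

set_option autoImplicit false

namespace Pool.Agent.Lib.MP_550fd0_al

section Forest

variable {A V ι : Type}

/-- The union of `S` and of the edges with index in `F` and different from `i`. -/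
def others (e : ι → A → V) (F : Finset ι) (i : ι) (S : Set V) : Set V :=
  {x | x ∈ S ∨ ∃ j ∈ F, j ≠ i ∧ x ∈ Set.range (e j)}

/-- Every nonempty set of at most `N` edges has a leaf relative to any root. -/
def Forest (N : ℕ) (e : ι → A → V) : Prop :=
  ∀ F : Finset ι, F.Nonempty → F.card ≤ N → ∀ S : Set V, S.Subsingleton →
    ∃ i ∈ F, (Set.range (e i) ∩ others e F i S).Subsingleton

lemma Forest.two_leaves {N : ℕ} {e : ι → A → V} (h : Forest N e) {F : Finset ι}
    (h2 : 2 ≤ F.card) (hN : F.card ≤ N) (i₀ : ι) :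
    ∃ i ∈ F, i ≠ i₀ ∧ (Set.range (e i) ∩ others e F i ∅).Subsingleton := by
  classical
  obtain ⟨i₁, hi₁, hl⟩ := h F (Finset.card_pos.mp (by omega)) hN ∅ Set.subsingleton_empty
  by_cases hne : i₁ = i₀
  · subst hne
    have hc : (F.erase i₁).card + 1 = F.card := Finset.card_erase_add_one hi₁
    obtain ⟨i₂, hi₂, hl₂⟩ := h (F.erase i₁) (Finset.card_pos.mp (by omega)) (by omega) _ hl
    refine ⟨i₂, (Finset.mem_erase.mp hi₂).2, (Finset.mem_erase.mp hi₂).1, hl₂.anti ?_⟩
    rintro x ⟨hx, hx'⟩
    refine ⟨hx, ?_⟩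
    rcases hx' with hx' | ⟨j, hj, hji, hxj⟩
    · exact absurd hx' (Set.notMem_empty x)
    · by_cases hj1 : j = i₁
      · subst hj1
        exact Or.inl ⟨hxj, Or.inr ⟨i₂, (Finset.mem_erase.mp hi₂).2,
          (Finset.mem_erase.mp hi₂).1, hx⟩⟩
      · exact Or.inr ⟨j, Finset.mem_erase.mpr ⟨hj1, hj⟩, hji, hxj⟩
  · exact ⟨i₁, hi₁, hne, hl⟩

/-- A system of at most `N` constraints on the edges of a forest is solvable. -/
theorem Forest.solve {G : Type*} [Group G] {N : ℕ} {e : ι → A → V} (h : Forest N e)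
    (hinj : ∀ i, Function.Injective (e i)) (lab : A → G) (F : Finset ι) (hF : F.card ≤ N) :
    ∃ s : V → G, ∀ i ∈ F, ∃ t : G, ∀ a, s (e i a) = lab a * t := by
  classical
  induction hn : F.card using Nat.strong_induction_on generalizing F with
  | _ n ih =>
    rcases F.eq_empty_or_nonempty with rfl | hne
    · exact ⟨fun _ => 1, fun i hi => absurd hi (Finset.notMem_empty i)⟩
    obtain ⟨i, hi, hl⟩ := h F hne hF ∅ Set.subsingleton_empty
    have hc : (F.erase i).card + 1 = F.card := Finset.card_erase_add_one hi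
    obtain ⟨s, hs⟩ := ih (F.erase i).card (by omega) (F.erase i) (by omega) rfl
    -- the value on the edge `i`
    obtain ⟨t, ht⟩ : ∃ t : G, ∀ a, e i a ∈ others e F i ∅ → s (e i a) = lab a * t := by
      by_cases hex : ∃ a, e i a ∈ others e F i ∅
      · obtain ⟨a, ha⟩ := hex
        refine ⟨(lab a)⁻¹ * s (e i a), fun b hb => ?_⟩
        have : e i b = e i a := hl ⟨⟨b, rfl⟩, hb⟩ ⟨⟨a, rfl⟩, ha⟩
        have hab : b = a := hinj i this
        subst hab
        rw [mul_inv_cancel_left]
      · exact ⟨1, fun a ha => absurd ⟨a, ha⟩ hex⟩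
    refine ⟨fun x => if hx : ∃ a, e i a = x then lab hx.choose * t else s x, fun j hj => ?_⟩
    have hval : ∀ a, (if hx : ∃ b, e i b = e i a then lab hx.choose * t else s (e i a)) =
        lab a * t := by
      intro a
      have hx : ∃ b, e i b = e i a := ⟨a, rfl⟩
      rw [dif_pos hx]
      rw [hinj i hx.choose_spec]
    by_cases hji : j = i
    · subst hji
      exact ⟨t, fun a => hval a⟩
    · obtain ⟨t', ht'⟩ := hs j (Finset.mem_erase.mpr ⟨hji, hj⟩)
      refine ⟨t', fun a => ?_⟩
      by_cases hx : ∃ b, e i b = e j a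
      · obtain ⟨b, hb⟩ := hx
        simp only []
        rw [← hb, hval b, ← ht b, hb, ht' a]
        refine Or.inr ⟨j, hj, hji, ⟨a, hb.symm⟩⟩
      · simp only []
        rw [dif_neg hx]
        exact ht' a

end Forest

section Amalgam

variable {A V ι X κ I : Type}

open Classical in
/-- The embedding of a copy of `V` in the amalgam. -/
noncomputable def emb (π : V → I) (i₀ : I) (M : κ → {v : V // π v = i₀} → X) (k : κ) (v : V) :
    X ⊕ (κ × V) :=
  if h : π v = i₀ then Sum.inl (M k ⟨v, h⟩) else Sum.inr (k, v)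

/-- The edges of the amalgam. -/
noncomputable def amEdge (π : V → I) (i₀ : I) (M : κ → {v : V // π v = i₀} → X)
    (e : ι → A → V) (p : κ × ι) (a : A) : X ⊕ (κ × V) := emb π i₀ M p.1 (e p.2 a)

variable {π : V → I} {i₀ : I} {M : κ → {v : V // π v = i₀} → X} {e : ι → A → V}

lemma emb_injective (hM : ∀ k, Function.Injective (M k)) (k : κ) :
    Function.Injective (emb π i₀ M k) := by
  intro v w h
  unfold emb at h
  split_ifs at h with h1 h2 h2
  · have := hM k (Sum.inl_injective h)
    exact congrArg Subtype.val this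
  · exact (Prod.ext_iff.mp (Sum.inr_injective h)).2

lemma emb_eq_of_ne {k k' : κ} (hk : k ≠ k') {v w : V} (h : emb π i₀ M k v = emb π i₀ M k' w) :
    ∃ (hv : π v = i₀) (hw : π w = i₀), M k ⟨v, hv⟩ = M k' ⟨w, hw⟩ := by
  unfold emb at h
  split_ifs at h with h1 h2 h2
  · exact ⟨h1, h2, Sum.inl_injective h⟩
  · exact absurd (Prod.ext_iff.mp (Sum.inr_injective h)).1 hk

lemma emb_eq_inl {k : κ} {v : V} {x : X} (h : emb π i₀ M k v = Sum.inl x) :
    ∃ hv : π v = i₀, M k ⟨v, hv⟩ = x := by
  unfold emb at h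
  split_ifs at h with h1
  exact ⟨h1, Sum.inl_injective h⟩

lemma emb_eq_inr {k k' : κ} {v w : V} (h : emb π i₀ M k v = Sum.inr (k', w)) : k = k' := by
  unfold emb at h
  split_ifs at h with h1
  exact (Prod.ext_iff.mp (Sum.inr_injective h)).1

/-- The amalgam of a partite forest along one part. -/
theorem amalgam_forest {N : ℕ} (he : Forest (N + 1) e) (hM : Forest N M)
    (hinj : ∀ k, Function.Injective (M k)) (hpart : ∀ i, Function.Injective fun a => π (e i a)) :
    Forest (N + 1) (amEdge π i₀ M e) := by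
  classical
  intro F hF hcard S hS
  set K : Finset κ := F.image Prod.fst with hK
  have hKne : K.Nonempty := hF.image _
  have hKcard : K.card ≤ F.card := Finset.card_image_le
  -- it is enough to find a copy with a small contact set
  suffices hk : ∃ k ∈ K, {x : V | (∃ i, (k, i) ∈ F ∧ x ∈ Set.range (e i)) ∧
      (emb π i₀ M k x ∈ S ∨ ∃ p ∈ F, p.1 ≠ k ∧
        emb π i₀ M k x ∈ Set.range (amEdge π i₀ M e p))}.Subsingleton by
    obtain ⟨k, hkK, hsub⟩ := hk
    set T := {x : V | (∃ i, (k, i) ∈ F ∧ x ∈ Set.range (e i)) ∧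
      (emb π i₀ M k x ∈ S ∨ ∃ p ∈ F, p.1 ≠ k ∧
        emb π i₀ M k x ∈ Set.range (amEdge π i₀ M e p))} with hT
    set Fk : Finset ι := (F.filter fun p => p.1 = k).image Prod.snd with hFk
    have hmem : ∀ i, i ∈ Fk ↔ (k, i) ∈ F := by
      intro i
      rw [hFk, Finset.mem_image]
      constructor
      · rintro ⟨p, hp, rfl⟩
        obtain ⟨hp1, hp2⟩ := Finset.mem_filter.mp hp
        rw [← hp2]
        exact hp1
      · intro h
        exact ⟨(k, i), Finset.mem_filter.mpr ⟨h, rfl⟩, rfl⟩
    have hFkne : Fk.Nonempty := by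
      obtain ⟨p, hp, hpk⟩ := Finset.mem_image.mp hkK
      refine ⟨p.2, (hmem _).mpr ?_⟩
      rw [← hpk]
      exact hp
    have hFkcard : Fk.card ≤ N + 1 :=
      (Finset.card_image_le.trans (Finset.card_filter_le _ _)).trans hcard
    obtain ⟨i, hi, hl⟩ := he Fk hFkne hFkcard T hsub
    refine ⟨(k, i), (hmem i).mp hi, ?_⟩
    have key : ∀ x', x' ∈ Set.range (amEdge π i₀ M e (k, i)) ∩
        others (amEdge π i₀ M e) F (k, i) S →
        ∃ x, emb π i₀ M k x = x' ∧ x ∈ Set.range (e i) ∩ others e Fk i T := by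
      rintro x' ⟨⟨a, rfl⟩, hx'⟩
      refine ⟨e i a, rfl, ⟨a, rfl⟩, ?_⟩
      rcases hx' with hx' | ⟨⟨k', j⟩, hj, hji, b, hb⟩
      · exact Or.inl ⟨⟨i, (hmem i).mp hi, a, rfl⟩, Or.inl hx'⟩
      · by_cases hkk : k' = k
        · subst hkk
          right
          have h1 : e j b = e i a := emb_injective hinj k' hb
          refine ⟨j, (hmem j).mpr hj, ?_, ⟨b, h1⟩⟩
          rintro rfl
          exact hji rfl
        · exact Or.inl ⟨⟨i, (hmem i).mp hi, a, rfl⟩, Or.inr ⟨(k', j), hj, hkk, b, hb⟩⟩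
    intro x' hx' y' hy'
    obtain ⟨x, rfl, hx⟩ := key x' hx'
    obtain ⟨y, rfl, hy⟩ := key y' hy'
    rw [hl hx hy]
  -- case distinction on the number of copies
  by_cases h1 : K.card = 1
  · -- one copy
    obtain ⟨k, hk⟩ := Finset.card_eq_one.mp h1
    refine ⟨k, by rw [hk]; exact Finset.mem_singleton_self k, ?_⟩
    have hall : ∀ p ∈ F, p.1 = k := by
      intro p hp
      have : p.1 ∈ K := Finset.mem_image_of_mem _ hp
      rw [hk] at this
      exact Finset.mem_singleton.mp this
    rintro x ⟨-, hx⟩ y ⟨-, hy⟩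
    have hx' : emb π i₀ M k x ∈ S := by
      rcases hx with hx | ⟨p, hp, hpk, -⟩
      · exact hx
      · exact absurd (hall p hp) hpk
    have hy' : emb π i₀ M k y ∈ S := by
      rcases hy with hy | ⟨p, hp, hpk, -⟩
      · exact hy
      · exact absurd (hall p hp) hpk
    exact emb_injective hinj k (hS hx' hy')
  · have h2 : 2 ≤ K.card := by
      have := Finset.card_pos.mpr hKne
      omega
    -- the copy which contains the root
    obtain ⟨k₀, hk₀⟩ : ∃ k₀ : κ, ∀ k, k ≠ k₀ → ∀ x, emb π i₀ M k x ∈ S →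
        ∃ z, emb π i₀ M k x = Sum.inl z := by
      obtain ⟨k₁, -⟩ := hKne
      rcases S.eq_empty_or_nonempty with rfl | ⟨s, hs⟩
      · exact ⟨k₁, fun k _ x hx => absurd hx (Set.notMem_empty _)⟩
      · rcases s with z | ⟨k', w⟩
        · exact ⟨k₁, fun k _ x hx => ⟨z, hS hx hs⟩⟩
        · refine ⟨k', fun k hk x hx => ?_⟩
          exact absurd (emb_eq_inr (hS hx hs)) hk
    by_cases h3 : K.card ≤ N
    · -- few copies: use the forest property of `M`
      by_cases hroot : ∃ z, Sum.inl z ∈ S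
      · obtain ⟨z, hz⟩ := hroot
        obtain ⟨k, hk, hl⟩ := hM K hKne h3 {z} Set.subsingleton_singleton
        refine ⟨k, hk, ?_⟩
        have key : ∀ x, (emb π i₀ M k x ∈ S ∨ ∃ p ∈ F, p.1 ≠ k ∧
            emb π i₀ M k x ∈ Set.range (amEdge π i₀ M e p)) →
            ∃ hx : π x = i₀, M k ⟨x, hx⟩ ∈ Set.range (M k) ∩ others M K k {z} := by
          rintro x (hx | ⟨⟨k', j⟩, hj, hkk, b, hb⟩)
          · obtain ⟨hx1, hx2⟩ := emb_eq_inl (hS hx hz)
            exact ⟨hx1, ⟨_, rfl⟩, Or.inl hx2⟩
          · obtain ⟨hv, hw, hvw⟩ := emb_eq_of_ne hkk hb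
            exact ⟨hw, ⟨_, rfl⟩, Or.inr ⟨k', Finset.mem_image_of_mem Prod.fst hj, hkk,
              ⟨⟨_, hv⟩, hvw⟩⟩⟩
        rintro x ⟨-, hx⟩ y ⟨-, hy⟩
        obtain ⟨hx1, hx2⟩ := key x hx
        obtain ⟨hy1, hy2⟩ := key y hy
        exact congrArg Subtype.val (hinj k (hl hx2 hy2))
      · obtain ⟨k, hk, hkk₀, hl⟩ := hM.two_leaves h2 h3 k₀
        refine ⟨k, hk, ?_⟩
        have key : ∀ x, (emb π i₀ M k x ∈ S ∨ ∃ p ∈ F, p.1 ≠ k ∧
            emb π i₀ M k x ∈ Set.range (amEdge π i₀ M e p)) →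
            ∃ hx : π x = i₀, M k ⟨x, hx⟩ ∈ Set.range (M k) ∩ others M K k ∅ := by
          rintro x (hx | ⟨⟨k', j⟩, hj, hkk, b, hb⟩)
          · obtain ⟨z, hz⟩ := hk₀ k hkk₀ x hx
            exact absurd ⟨z, hz ▸ hx⟩ hroot
          · obtain ⟨hv, hw, hvw⟩ := emb_eq_of_ne hkk hb
            exact ⟨hw, ⟨_, rfl⟩, Or.inr ⟨k', Finset.mem_image_of_mem Prod.fst hj, hkk,
              ⟨⟨_, hv⟩, hvw⟩⟩⟩
        rintro x ⟨-, hx⟩ y ⟨-, hy⟩
        obtain ⟨hx1, hx2⟩ := key x hx
        obtain ⟨hy1, hy2⟩ := key y hy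
        exact congrArg Subtype.val (hinj k (hl hx2 hy2))
    · -- as many copies as edges: each copy has exactly one edge
      have hcK : K.card = F.card := by omega
      have hinjF : Set.InjOn Prod.fst (F : Set (κ × ι)) :=
        Finset.card_image_iff.mp hcK
      obtain ⟨k, hk, hkk₀⟩ : ∃ k ∈ K, k ≠ k₀ := by
        obtain ⟨a, ha, b, hb, hab⟩ := Finset.one_lt_card.mp (by omega : 1 < K.card)
        by_cases hak : a = k₀
        · exact ⟨b, hb, fun h => hab (hak.trans h.symm)⟩
        · exact ⟨a, ha, hak⟩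
      refine ⟨k, hk, ?_⟩
      rintro x ⟨⟨i, hi, a, rfl⟩, hx⟩ y ⟨⟨j, hj, b, rfl⟩, hy⟩
      have hij : i = j := by
        have := hinjF hi hj rfl
        exact (Prod.ext_iff.mp this).2
      subst hij
      have key : ∀ x, (emb π i₀ M k x ∈ S ∨ ∃ p ∈ F, p.1 ≠ k ∧
          emb π i₀ M k x ∈ Set.range (amEdge π i₀ M e p)) → π x = i₀ := by
        rintro x (hx | ⟨⟨k', j⟩, hj, hkk, b, hb⟩)
        · obtain ⟨z, hz⟩ := hk₀ k hkk₀ x hx
          exact (emb_eq_inl hz).1
        · obtain ⟨hv, hw, hvw⟩ := emb_eq_of_ne hkk hb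
          exact hw
      have : a = b := hpart i ((key _ hx).trans (key _ hy).symm)
      rw [this]

end Amalgam

section Exists

/-- The pigeonhole principle. -/
lemma exists_mono_injection (A : Type) [Fintype A] (r : ℕ) (χ : A × Fin (r + 1) → Fin (r + 1)) :
    ∃ κ : A → A × Fin (r + 1), Function.Injective κ ∧ ∀ a b, χ (κ a) = χ (κ b) := by
  classical
  obtain ⟨y, hy⟩ := Fintype.exists_le_card_fiber_of_mul_le_card χ (n := Fintype.card A)
    (by rw [Fintype.card_prod, mul_comm])
  have h1 : Fintype.card A ≤ Fintype.card {x : A × Fin (r + 1) // χ x = y} := by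
    rw [Fintype.card_subtype]
    exact hy
  obtain ⟨f⟩ := Function.Embedding.nonempty_of_card_le h1
  exact ⟨fun a => (f a).1, fun a b h => f.injective (Subtype.ext h),
    fun a b => (f a).2.trans (f b).2.symm⟩

/-- The statement of the existence of hypergraphs. -/
def Exist (N : ℕ) : Prop :=
  ∀ (A : Type) [Fintype A] (r : ℕ), ∃ (V ι : Type) (_ : Fintype V) (_ : Fintype ι) (e : ι → A → V),
    (∀ i, Function.Injective (e i)) ∧ Forest N e ∧
      ∀ c : V → Fin (r + 1), ∃ i, ∀ a b, c (e i a) = c (e i b)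

lemma exist_zero : Exist 0 := by
  classical
  intro A _ r
  refine ⟨A × Fin (r + 1), {f : A → A × Fin (r + 1) // Function.Injective f}, inferInstance,
    inferInstance, fun f => f.1, fun f => f.2, ?_, ?_⟩
  · intro F hF hc
    exact absurd (Finset.card_pos.mpr hF) (by omega)
  · intro c
    obtain ⟨κ, hκ, hκ'⟩ := exists_mono_injection A r c
    exact ⟨⟨κ, hκ⟩, hκ'⟩

lemma exist_succ {N : ℕ} (hN : Exist N) : Exist (N + 1) := by
  classical
  intro A _ r
  -- the inductive statement on the set of processed parts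
  have key : ∀ S : Finset (A × Fin (r + 1)), ∃ (V ι : Type) (_ : Fintype V) (_ : Fintype ι)
      (π : V → A × Fin (r + 1)) (e : ι → A → V),
      (∀ i, Function.Injective fun a => π (e i a)) ∧ Forest (N + 1) e ∧
      ∀ c : V → Fin (r + 1), ∃ χ : A × Fin (r + 1) → Fin (r + 1),
        ∀ κ : A → A × Fin (r + 1), Function.Injective κ →
          ∃ i, (∀ a, π (e i a) = κ a) ∧ ∀ a, κ a ∈ S → c (e i a) = χ (κ a) := by
    intro S
    induction S using Finset.induction_on with
    | empty =>
      refine ⟨{f : A → A × Fin (r + 1) // Function.Injective f} × A,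
        {f : A → A × Fin (r + 1) // Function.Injective f}, inferInstance, inferInstance,
        fun p => p.1.1 p.2, fun f a => (f, a), fun f => f.2, ?_, ?_⟩
      · intro F hF hc S hS
        obtain ⟨f, hf⟩ := hF
        refine ⟨f, hf, ?_⟩
        have key : ∀ x, x ∈ Set.range (fun a : A => (f, a)) ∩
            others (fun (f : {f : A → A × Fin (r + 1) // Function.Injective f}) (a : A) => (f, a))
              F f S → x ∈ S := by
          rintro x ⟨⟨a, rfl⟩, hx | ⟨g, hg, hgf, b, hb⟩⟩
          · exact hx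
          · exact absurd (Prod.ext_iff.mp hb).1 hgf
        intro x hx y hy
        exact hS (key x hx) (key y hy)
      · intro c
        refine ⟨fun _ => 0, fun κ hκ => ⟨⟨κ, hκ⟩, fun a => rfl, fun a ha => ?_⟩⟩
        exact absurd ha (Finset.notMem_empty _)
    | insert i₀ S hi₀ ih =>
      obtain ⟨V, ι, _, _, π, e, hpart, hfor, hram⟩ := ih
      obtain ⟨X, κ₁, _, _, M, hMinj, hMfor, hMram⟩ := hN {v : V // π v = i₀} r
      refine ⟨X ⊕ (κ₁ × V), κ₁ × ι, inferInstance, inferInstance,
        Sum.elim (fun _ => i₀) (fun p => π p.2), amEdge π i₀ M e, ?_, ?_, ?_⟩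
      · rintro ⟨k, i⟩ a b h
        have hπ : ∀ v, Sum.elim (fun _ => i₀) (fun p : κ₁ × V => π p.2) (emb π i₀ M k v) = π v := by
          intro v
          unfold emb
          split_ifs with h
          · exact h.symm
          · rfl
        simp only [amEdge, hπ] at h
        exact hpart i h
      · exact amalgam_forest hfor hMfor hMinj hpart
      · intro c
        have hπ : ∀ k v, Sum.elim (fun _ => i₀) (fun p : κ₁ × V => π p.2) (emb π i₀ M k v) =
            π v := by
          intro k v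
          unfold emb
          split_ifs with h
          · exact h.symm
          · rfl
        obtain ⟨k, hk⟩ := hMram fun x => c (Sum.inl x)
        obtain ⟨χ, hχ⟩ := hram fun v => c (emb π i₀ M k v)
        -- the colour of the part `i₀`
        obtain ⟨col, hcol⟩ : ∃ col, ∀ v : V, π v = i₀ → c (emb π i₀ M k v) = col := by
          by_cases hex : ∃ v : V, π v = i₀
          · obtain ⟨v, hv⟩ := hex
            refine ⟨c (emb π i₀ M k v), fun w hw => ?_⟩
            unfold emb
            rw [dif_pos hw, dif_pos hv]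
            exact hk _ _
          · exact ⟨0, fun v hv => absurd ⟨v, hv⟩ hex⟩
        refine ⟨fun i => if i = i₀ then col else χ i, fun κ hκ => ?_⟩
        obtain ⟨i, hi, hi'⟩ := hχ κ hκ
        refine ⟨(k, i), fun a => ?_, fun a ha => ?_⟩
        · rw [← hi a]
          exact hπ k (e i a)
        · change c (emb π i₀ M k (e i a)) = if κ a = i₀ then col else χ (κ a)
          by_cases hai : κ a = i₀
          · rw [if_pos hai]
            exact hcol _ ((hi a).trans hai)
          · rw [if_neg hai]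
            exact hi' a ((Finset.mem_insert.mp ha).resolve_left hai)
  obtain ⟨V, ι, hV, hι, π, e, hpart, hfor, hram⟩ := key Finset.univ
  refine ⟨V, ι, hV, hι, e, fun i => ?_, hfor, fun c => ?_⟩
  · exact Function.Injective.of_comp (f := π) (hpart i)
  · obtain ⟨χ, hχ⟩ := hram c
    obtain ⟨κ, hκ, hκ'⟩ := exists_mono_injection A r χ
    obtain ⟨i, -, hi⟩ := hχ κ hκ
    refine ⟨i, fun a b => ?_⟩
    rw [hi a (Finset.mem_univ _), hi b (Finset.mem_univ _)]
    exact hκ' a b

/-- **Erdős–Hajnal, Lovász, Nešetřil–Rödl.** There are finite uniform hypergraphs with large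
chromatic number all of whose small sets of edges are forests. -/
theorem exists_hypergraph (N : ℕ) (A : Type) [Fintype A] (r : ℕ) :
    ∃ (V ι : Type) (_ : Fintype V) (_ : Fintype ι) (e : ι → A → V),
      (∀ i, Function.Injective (e i)) ∧ Forest N e ∧
        ∀ c : V → Fin (r + 1), ∃ i, ∀ a b, c (e i a) = c (e i b) := by
  have h : Exist N := by
    induction N with
    | zero => exact exist_zero
    | succ N ih => exact exist_succ ih
  exact h A r

end Exists

end Pool.Agent.Lib.MP_550fd0_al
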