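import Mathlib
import Pool.Agent.Lib.MP_550fd0_al.Hypergraph

/-!
# The norm of a forest of constraints
-/

set_option autoImplicit false

namespace Pool.Agent.Lib.MP_550fd0_al

/-- A conjugation invariant pseudonorm. -/
structure IsNorm {G : Type} [Group G] (ℓ : G → ℝ) : Prop where
  one : ℓ 1 = 0
  nonneg : ∀ g, 0 ≤ ℓ g
  inv : ∀ g, ℓ g⁻¹ = ℓ g
  mul : ∀ g h, ℓ (g * h) ≤ ℓ g + ℓ h
  conj : ∀ g h, ℓ (h * g * h⁻¹) = ℓ g

section Norm

variable {G A V ι : Type} [Group G] (ℓ : G → ℝ) (w : ℝ) (e : ι → A → V) (lab : A → G) (a₀ : A)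

/-- The solutions of the constraints with index in `J`. -/
def Sol (J : Finset ι) : Set (V → G) :=
  {s | ∀ i ∈ J, ∀ a, s (e i a) = lab a * s (e i a₀)}

/-- The set of upper bounds which defines the norm. -/
def Bd (x : (V → G) → G) : Set ℝ :=
  {u | ∃ J : Finset ι, ∃ t : ℝ, 0 ≤ t ∧ (∀ s ∈ Sol e lab a₀ J, ℓ (x s) ≤ t) ∧ J.card * w + t ≤ u}

/-- The norm on the group of functions on `V → G`. -/
noncomputable def LL (x : (V → G) → G) : ℝ := sInf (Bd ℓ w e lab a₀ x)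

variable {ℓ w e lab a₀}

lemma Sol_anti {J J' : Finset ι} (h : J ⊆ J') : Sol e lab a₀ J' ⊆ Sol e lab a₀ J :=
  fun _ hs i hi => hs i (h hi)

lemma Bd_nonneg (hw : 0 ≤ w) {x : (V → G) → G} {u : ℝ} (hu : u ∈ Bd ℓ w e lab a₀ x) : 0 ≤ u := by
  obtain ⟨J, t, ht, -, h⟩ := hu
  have : 0 ≤ (J.card : ℝ) * w := by positivity
  linarith

lemma Bd_bddBelow (hw : 0 ≤ w) (x : (V → G) → G) : BddBelow (Bd ℓ w e lab a₀ x) :=
  ⟨0, fun _ hu => Bd_nonneg hw hu⟩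

lemma Bd_nonempty {T : ℝ} (hT : ∀ g, ℓ g ≤ T) (hℓ : IsNorm ℓ) (x : (V → G) → G) :
    (Bd ℓ w e lab a₀ x).Nonempty :=
  ⟨T, ∅, T, (hℓ.nonneg 1).trans (hT 1), fun s _ => hT _, by simp⟩

lemma LL_le {x : (V → G) → G} (hw : 0 ≤ w) {u : ℝ} (hu : u ∈ Bd ℓ w e lab a₀ x) :
    LL ℓ w e lab a₀ x ≤ u := csInf_le (Bd_bddBelow hw x) hu

theorem LL_isNorm {T : ℝ} (hT : ∀ g, ℓ g ≤ T) (hℓ : IsNorm ℓ) (hw : 0 ≤ w) :
    IsNorm (LL ℓ w e lab a₀) where
  one := by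
    refine le_antisymm (LL_le hw ⟨∅, 0, le_rfl, fun s _ => ?_, by simp⟩)
      (le_csInf (Bd_nonempty hT hℓ _) fun u hu => Bd_nonneg hw hu)
    rw [Pi.one_apply, hℓ.one]
  nonneg x := le_csInf (Bd_nonempty hT hℓ _) fun u hu => Bd_nonneg hw hu
  inv x := by
    unfold LL Bd
    simp only [Pi.inv_apply, hℓ.inv]
  mul x y := by
    have h : ∀ u ∈ Bd ℓ w e lab a₀ x, ∀ v ∈ Bd ℓ w e lab a₀ y,
        LL ℓ w e lab a₀ (x * y) ≤ u + v := by
      classical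
      rintro u ⟨J, t, ht, hs, hu⟩ v ⟨J', t', ht', hs', hv⟩
      refine LL_le hw ⟨J ∪ J', t + t', add_nonneg ht ht', fun s hs'' => ?_, ?_⟩
      · have h1 := hs s (Sol_anti Finset.subset_union_left hs'')
        have h2 := hs' s (Sol_anti Finset.subset_union_right hs'')
        have h3 := hℓ.mul (x s) (y s)
        rw [Pi.mul_apply]
        linarith
      · have h1 : ((J ∪ J').card : ℝ) ≤ J.card + J'.card := by
          exact_mod_cast Finset.card_union_le J J'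
        nlinarith
    have h1 : ∀ u ∈ Bd ℓ w e lab a₀ x, LL ℓ w e lab a₀ (x * y) - u ≤ LL ℓ w e lab a₀ y :=
      fun u hu => le_csInf (Bd_nonempty hT hℓ _) fun v hv => by linarith [h u hu v hv]
    have h2 : LL ℓ w e lab a₀ (x * y) - LL ℓ w e lab a₀ y ≤ LL ℓ w e lab a₀ x :=
      le_csInf (Bd_nonempty hT hℓ _) fun u hu => by linarith [h1 u hu]
    linarith
  conj x y := by
    unfold LL Bd
    simp only [Pi.mul_apply, Pi.inv_apply, hℓ.conj]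

/-- The restriction to the constants. -/
theorem LL_const {N : ℕ} {T : ℝ} (hT : ∀ g, ℓ g ≤ T) (hℓ : IsNorm ℓ)
    (hw : T ≤ N * w) (hw0 : 0 ≤ w)
    (hsol : ∀ J : Finset ι, J.card ≤ N → (Sol e lab a₀ J).Nonempty) (g : G) :
    LL ℓ w e lab a₀ (fun _ => g) = ℓ g := by
  refine le_antisymm (LL_le hw0 ⟨∅, ℓ g, hℓ.nonneg g, fun s _ => le_rfl, by simp⟩)
    (le_csInf (Bd_nonempty hT hℓ _) ?_)
  rintro u ⟨J, t, ht, hs, hu⟩
  by_cases hJ : J.card ≤ N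
  · obtain ⟨s, hs'⟩ := hsol J hJ
    have h1 := hs s hs'
    have : 0 ≤ (J.card : ℝ) * w := by positivity
    linarith
  · have h1 : (N : ℝ) ≤ J.card := by exact_mod_cast (not_le.mp hJ).le
    have h2 := hT g
    nlinarith

/-- Functions which are trivial on the solutions of one constraint have small norm. -/
theorem LL_small (hw : 0 ≤ w) (hℓ : IsNorm ℓ) (i : ι) {x : (V → G) → G}
    (hx : ∀ s ∈ Sol e lab a₀ {i}, x s = 1) : LL ℓ w e lab a₀ x ≤ w := by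
  refine LL_le hw ⟨{i}, 0, le_rfl, fun s hs => ?_, by simp⟩
  rw [hx s hs, hℓ.one]

end Norm

end Pool.Agent.Lib.MP_550fd0_al
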