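import Mathlib
import Pool.Agent.Lib.MP_550fd0_al.Norm

/-!
# The density of the Ramsey property
-/

set_option autoImplicit false

open Topology

namespace Pool.Agent.Lib.MP_550fd0_al

/-- The free group on countably many generators. -/
abbrev FF : Type := FreeGroup ℕ

/-- Bi-invariant pseudometrics. -/
def IsPM (p : FF → FF → ℝ) : Prop :=
  (∀ g, p g g = 0) ∧ (∀ g h, p g h = p h g) ∧ (∀ g h k, p g k ≤ p g h + p h k) ∧
    (∀ g h k, p (k * g) (k * h) = p g h) ∧ (∀ g h k, p (g * k) (h * k) = p g h)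

/-- The Ramsey property. -/
def Ram (E : Finset FF) (ε : ℝ) (r : ℕ) (q : FF → FF → ℝ) : Prop :=
  ∃ Ω : Finset FF, ∀ c : Ω → Fin (r + 1), ∃ h : Ω, ∀ g ∈ E, ∃ h' : Ω, c h' = c h ∧ q (g * h) h' < ε

theorem isOpen_Ram (E : Finset FF) (ε : ℝ) (r : ℕ) : IsOpen {q | Ram E ε r q} := by
  have h1 : {q | Ram E ε r q} = ⋃ Ω : Finset FF, ⋂ c : Ω → Fin (r + 1), ⋃ h : Ω, ⋂ g ∈ E,
      ⋃ h' : Ω, {q : FF → FF → ℝ | c h' = c h ∧ q (g * h) h' < ε} := by
    ext q
    simp only [Ram, Set.mem_ofPred_eq, Set.mem_iUnion, Set.mem_iInter]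
  rw [h1]
  refine isOpen_iUnion fun Ω => isOpen_iInter_of_finite fun c => isOpen_iUnion fun h =>
    isOpen_biInter_finset fun g _ => isOpen_iUnion fun h' => ?_
  by_cases hc : c h' = c h
  · have h2 : {q : FF → FF → ℝ | c h' = c h ∧ q (g * h) h' < ε} =
        {q : FF → FF → ℝ | q (g * h) h' < ε} := by
      ext q; simp [hc]
    rw [h2]
    exact isOpen_lt ((continuous_apply (h' : FF)).comp (continuous_apply (g * h))) continuous_const
  · have h2 : {q : FF → FF → ℝ | c h' = c h ∧ q (g * h) h' < ε} = ∅ := by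
      ext q; simp [hc]
    rw [h2]
    exact isOpen_empty

namespace IsPM

variable {p : FF → FF → ℝ}

lemma refl (hp : IsPM p) (g : FF) : p g g = 0 := hp.1 g
lemma symm (hp : IsPM p) (g h : FF) : p g h = p h g := hp.2.1 g h
lemma tri (hp : IsPM p) (g h k : FF) : p g k ≤ p g h + p h k := hp.2.2.1 g h k
lemma left (hp : IsPM p) (g h k : FF) : p (k * g) (k * h) = p g h := hp.2.2.2.1 g h k
lemma right (hp : IsPM p) (g h k : FF) : p (g * k) (h * k) = p g h := hp.2.2.2.2 g h k

lemma nonneg (hp : IsPM p) (g h : FF) : 0 ≤ p g h := by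
  have h1 := hp.tri g h g
  rw [hp.refl, hp.symm h g] at h1
  linarith

lemma isNorm (hp : IsPM p) {T : ℝ} (hT : 0 ≤ T) : IsNorm fun g => min (p g 1) T where
  one := by
    simp only [hp.refl]
    exact min_eq_left hT
  nonneg g := le_min (hp.nonneg g 1) hT
  inv g := by
    have h1 := hp.left g⁻¹ 1 g
    rw [mul_inv_cancel, mul_one] at h1
    rw [← h1, hp.symm]
  mul g h := by
    have h1 := hp.tri (g * h) h 1
    have h2 := hp.right g 1 h
    rw [one_mul] at h2
    rw [h2] at h1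
    have h3 := hp.nonneg g 1
    have h4 := hp.nonneg h 1
    rcases le_total (p g 1) T with h5 | h5
    · rcases le_total (p h 1) T with h6 | h6
      · rw [min_eq_left h5, min_eq_left h6]
        exact (min_le_left _ _).trans h1
      · rw [min_eq_left h5, min_eq_right h6]
        exact (min_le_right _ _).trans (by linarith)
    · rw [min_eq_right h5]
      exact (min_le_right _ _).trans (by linarith [le_min h4 hT])
  conj g h := by
    have h1 := hp.right (h * g) h h⁻¹
    have h2 := hp.left g 1 h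
    rw [mul_one] at h2
    rw [mul_inv_cancel, h2] at h1
    rw [h1]

/-- The pull back of a norm. -/
lemma of_norm {H : Type} [Group H] {L : H → ℝ} (hL : IsNorm L) (θ : FF →* H) :
    IsPM fun g h => L ((θ g)⁻¹ * θ h) := by
  refine ⟨fun g => ?_, fun g h => ?_, fun g h k => ?_, fun g h k => ?_, fun g h k => ?_⟩
  · simp only [inv_mul_cancel, hL.one]
  · simp only []
    rw [← hL.inv]
    congr 1
    group
  · have : (θ g)⁻¹ * θ k = (θ g)⁻¹ * θ h * ((θ h)⁻¹ * θ k) := by group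
    simp only [this]
    exact hL.mul _ _
  · simp only [map_mul]
    congr 1
    group
  · simp only [map_mul]
    rw [← hL.conj ((θ g)⁻¹ * θ h) (θ k)⁻¹]
    congr 1
    group

end IsPM

/-- The subgroup generated by the first `m` generators. -/
def Fm (m : ℕ) : Subgroup FF := Subgroup.closure (FreeGroup.of '' {i | i < m})

lemma Fm_mono {m m' : ℕ} (h : m ≤ m') : Fm m ≤ Fm m' :=
  Subgroup.closure_mono (Set.image_mono fun _ hi => lt_of_lt_of_le hi h)

lemma exists_mem_Fm (g : FF) : ∃ m, g ∈ Fm m := by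
  have h : g ∈ (⊤ : Subgroup FF) := Subgroup.mem_top g
  rw [← FreeGroup.closure_range_of ℕ] at h
  induction h using Subgroup.closure_induction with
  | mem x hx =>
    obtain ⟨i, rfl⟩ := hx
    exact ⟨i + 1, Subgroup.subset_closure ⟨i, Nat.lt_succ_self i, rfl⟩⟩
  | one => exact ⟨0, Subgroup.one_mem _⟩
  | mul x y _ _ hx hy =>
    obtain ⟨m, hm⟩ := hx
    obtain ⟨m', hm'⟩ := hy
    exact ⟨max m m', Subgroup.mul_mem _ (Fm_mono (le_max_left _ _) hm)
      (Fm_mono (le_max_right _ _) hm')⟩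
  | inv x _ hx =>
    obtain ⟨m, hm⟩ := hx
    exact ⟨m, Subgroup.inv_mem _ hm⟩

/-- The Ramsey property can be achieved without changing the metric on finitely many generators
(up to truncation). -/
theorem exists_ram {p : FF → FF → ℝ} (hp : IsPM p) (E : Finset FF) {ε : ℝ} (hε : 0 < ε) (r m : ℕ)
    (hE : ∀ g ∈ E, g ∈ Fm m) {T : ℝ} (hT : 0 ≤ T) :
    ∃ q, IsPM q ∧ Ram E ε r q ∧ ∀ g ∈ Fm m, ∀ h ∈ Fm m, q g h = min (p g h) T := by
  classical
  set ℓ : FF → ℝ := fun g => min (p g 1) T with hℓdef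
  have hℓ : IsNorm ℓ := hp.isNorm hT
  have hℓT : ∀ g, ℓ g ≤ T := fun g => min_le_right _ _
  obtain ⟨N, hN⟩ := exists_nat_gt (T / ε)
  have hN0 : (0 : ℝ) < N := lt_of_le_of_lt (by positivity) hN
  set w : ℝ := T / N with hw
  have hw0 : 0 ≤ w := by positivity
  have hwε : w < ε := by
    rw [hw, div_lt_iff₀ hN0]
    rw [div_lt_iff₀ hε] at hN
    linarith
  have hTw : T ≤ N * w := by
    rw [hw, mul_div_cancel₀ _ hN0.ne']
  obtain ⟨E', hE'1, hE'E⟩ : ∃ E' : Finset FF, 1 ∈ E' ∧ ∀ g ∈ E, g ∈ E' :=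
    ⟨insert 1 E, Finset.mem_insert_self 1 E, fun g hg => Finset.mem_insert_of_mem hg⟩
  obtain ⟨V, ι, _, _, e, hinj, hfor, hram⟩ := exists_hypergraph N {g : FF // g ∈ E'} r
  set lab : {g : FF // g ∈ E'} → FF := Subtype.val with hlab
  set a₀ : {g : FF // g ∈ E'} := ⟨1, hE'1⟩ with ha₀
  have hsol : ∀ J : Finset ι, J.card ≤ N → (Sol e lab a₀ J).Nonempty := by
    intro J hJ
    obtain ⟨s, hs⟩ := hfor.solve hinj lab J hJ
    refine ⟨s, fun i hi a => ?_⟩
    obtain ⟨t, ht⟩ := hs i hi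
    rw [ht a, ht a₀]
    simp [hlab, ha₀]
  have hL : IsNorm (LL ℓ w e lab a₀) := LL_isNorm hℓT hℓ hw0
  -- the homomorphism
  let j : V → ℕ := fun v => m + (Fintype.equivFin V v).1
  have hj : Function.Injective j := by
    intro v v' h
    have h1 : (Fintype.equivFin V v).1 = (Fintype.equivFin V v').1 := Nat.add_left_cancel h
    exact (Fintype.equivFin V).injective (Fin.ext h1)
  let θ : FF →* ((V → FF) → FF) := FreeGroup.lift fun i =>
    if h : ∃ v, j v = i then (fun s => s h.choose) else fun _ => FreeGroup.of i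
  have hθj : ∀ v, θ (FreeGroup.of (j v)) = fun s => s v := by
    intro v
    have h : ∃ v', j v' = j v := ⟨v, rfl⟩
    rw [FreeGroup.lift_apply_of, dif_pos h]
    funext s
    rw [hj h.choose_spec]
  have hθm : ∀ g ∈ Fm m, θ g = fun _ => g := by
    let c : FF →* ((V → FF) → FF) :=
      { toFun := fun g _ => g
        map_one' := rfl
        map_mul' := fun _ _ => rfl }
    have h1 : Fm m ≤ MonoidHom.eqLocus θ c := by
      refine (Subgroup.closure_le _).mpr ?_
      rintro _ ⟨i, hi, rfl⟩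
      change θ (FreeGroup.of i) = c (FreeGroup.of i)
      rw [FreeGroup.lift_apply_of, dif_neg]
      · rfl
      · rintro ⟨v, hv⟩
        have h2 : m + (Fintype.equivFin V v).1 = i := hv
        have h3 : i < m := hi
        omega
    exact fun g hg => h1 hg
  refine ⟨fun g h => LL ℓ w e lab a₀ ((θ g)⁻¹ * θ h), IsPM.of_norm hL θ, ?_, ?_⟩
  · refine ⟨Finset.univ.image fun v => FreeGroup.of (j v), fun c => ?_⟩
    have hmem : ∀ v, FreeGroup.of (j v) ∈ Finset.univ.image fun v => FreeGroup.of (j v) :=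
      fun v => Finset.mem_image_of_mem _ (Finset.mem_univ v)
    obtain ⟨i, hi⟩ := hram fun v => c ⟨FreeGroup.of (j v), hmem v⟩
    refine ⟨⟨FreeGroup.of (j (e i a₀)), hmem _⟩, fun g hg => ?_⟩
    set a : {g : FF // g ∈ E'} := ⟨g, hE'E g hg⟩ with ha
    refine ⟨⟨FreeGroup.of (j (e i a)), hmem _⟩, hi a a₀, ?_⟩
    refine lt_of_le_of_lt (LL_small hw0 hℓ i fun s hs => ?_) hwε
    have h1 : s (e i a) = g * s (e i a₀) := hs i (Finset.mem_singleton_self i) a
    rw [map_mul, hθm g (hE g hg), hθj, hθj]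
    change (g * s (e i a₀))⁻¹ * s (e i a) = 1
    rw [h1, inv_mul_cancel]
  · intro g hg h hh
    simp only []
    rw [hθm g hg, hθm h hh]
    have h1 : ((fun _ => g : (V → FF) → FF)⁻¹ * fun _ => h) = fun _ => g⁻¹ * h := rfl
    rw [h1, LL_const hℓT hℓ hTw hw0 hsol]
    have h2 := hp.left (g⁻¹ * h) 1 g
    rw [mul_inv_cancel_left, mul_one] at h2
    simp only [hℓdef]
    rw [← h2, hp.symm]

end Pool.Agent.Lib.MP_550fd0_al
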