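import Mathlib
import Pool.Agent.Lib.MP_550fd0_al.Density

/-!
# Extreme amenability and the Ramsey property
-/

set_option autoImplicit false

open Topology

namespace Pool.Agent.Lib.MP_550fd0_al

/-- Extreme amenability of `(F, p)`. -/
def ExtAm (p : FF → FF → ℝ) : Prop :=
  ∀ (X : Type) [TopologicalSpace X] [CompactSpace X] [T2Space X] [Nonempty X] [MulAction FF X],
    (∀ (g : FF) (x : X) (U : Set X), IsOpen U → g • x ∈ U →
      ∃ ε > (0 : ℝ), ∃ V : Set X, IsOpen V ∧ x ∈ V ∧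
        ∀ h : FF, p g h < ε → ∀ y ∈ V, h • y ∈ U) →
    ∃ x : X, ∀ g : FF, g • x = x

lemma exists_pos_le {α : Type*} (t : Finset α) (δ : α → ℝ) (h : ∀ x ∈ t, 0 < δ x) :
    ∃ ε > 0, ∀ x ∈ t, ε ≤ δ x := by
  classical
  induction t using Finset.induction_on with
  | empty => exact ⟨1, one_pos, fun x hx => absurd hx (Finset.notMem_empty x)⟩
  | insert a s ha ih =>
    obtain ⟨ε, hε, h1⟩ := ih fun x hx => h x (Finset.mem_insert_of_mem hx)
    refine ⟨min ε (δ a), lt_min hε (h a (Finset.mem_insert_self a s)), fun x hx => ?_⟩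
    rcases Finset.mem_insert.mp hx with rfl | hx
    · exact min_le_right _ _
    · exact (min_le_left _ _).trans (h1 x hx)

theorem extAm_of_ram {p : FF → FF → ℝ} (hp : IsPM p)
    (h : ∀ (E : Finset FF) (ε : ℝ) (r : ℕ), 0 < ε → Ram E ε r p) : ExtAm p := by
  classical
  intro X _ _ _ _ _ hc
  by_contra hno
  push Not at hno
  have hcont : ∀ g : FF, Continuous fun x : X => g • x := by
    intro g
    rw [continuous_iff_continuousAt]
    intro x
    rw [ContinuousAt, tendsto_nhds]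
    intro U hU hx
    obtain ⟨ε, hε, V, hV, hxV, h1⟩ := hc g x U hU hx
    exact Filter.mem_of_superset (hV.mem_nhds hxV) fun y hy => h1 g (by rw [hp.refl]; exact hε) y hy
  choose γ hγ using hno
  have hK : ∀ x : X, ∃ K ∈ 𝓝 x, IsClosed K ∧ ∀ y ∈ K, γ x • y ∉ K := by
    intro x
    obtain ⟨A, B, hA, hB, hxA, hxB, hAB⟩ := t2_separation (hγ x).symm
    have hV : A ∩ (fun y => γ x • y) ⁻¹' B ∈ 𝓝 x :=
      (hA.inter (hB.preimage (hcont (γ x)))).mem_nhds ⟨hxA, hxB⟩
    obtain ⟨K, hK, hKc, hKV⟩ := exists_mem_nhds_isClosed_subset hV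
    refine ⟨K, hK, hKc, fun y hy hy' => ?_⟩
    exact Set.disjoint_left.mp hAB (hKV hy').1 (hKV hy).2
  choose K hKn hKc hKd using hK
  obtain ⟨t, ht⟩ := CompactSpace.elim_nhds_subcover K hKn
  -- a uniform `ε`
  have hδ : ∀ x : X, ∃ δ > 0, ∀ u : FF, p 1 u < δ → ∀ y ∈ K x, u • γ x • y ∉ K x := by
    intro x
    have hcomp : IsCompact ((fun y => γ x • y) '' K x) := (hKc x).isCompact.image (hcont (γ x))
    have h1 : ∃ δ > 0, ∀ u : FF, p 1 u < δ → ∀ z ∈ (fun y => γ x • y) '' K x, u • z ∉ K x := by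
      refine hcomp.induction_on (p := fun S => ∃ δ > 0, ∀ u : FF, p 1 u < δ → ∀ z ∈ S, u • z ∉ K x)
        ⟨1, one_pos, fun u _ z hz => absurd hz (Set.notMem_empty z)⟩ ?_ ?_ ?_
      · rintro S S' hSS' ⟨δ, hδ, h2⟩
        exact ⟨δ, hδ, fun u hu z hz => h2 u hu z (hSS' hz)⟩
      · rintro S S' ⟨δ, hδ, h2⟩ ⟨δ', hδ', h2'⟩
        refine ⟨min δ δ', lt_min hδ hδ', fun u hu z hz => ?_⟩
        rcases hz with hz | hz
        · exact h2 u (hu.trans_le (min_le_left _ _)) z hz
        · exact h2' u (hu.trans_le (min_le_right _ _)) z hz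
      · rintro _ ⟨y, hy, rfl⟩
        have h3 : (1 : FF) • γ x • y ∈ (K x)ᶜ := by
          rw [one_smul]
          exact hKd x y hy
        obtain ⟨δ, hδ, V, hV, hyV, h4⟩ := hc 1 (γ x • y) (K x)ᶜ (hKc x).isOpen_compl h3
        exact ⟨V, mem_nhdsWithin_of_mem_nhds (hV.mem_nhds hyV), δ, hδ,
          fun u hu z hz => h4 u hu z hz⟩
    obtain ⟨δ, hδ, h2⟩ := h1
    exact ⟨δ, hδ, fun u hu y hy => h2 u hu _ ⟨y, hy, rfl⟩⟩
  choose δ hδ0 hδ1 using hδ
  obtain ⟨ε, hε, hεδ⟩ := exists_pos_le t δ fun x _ => hδ0 x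
  -- the colouring
  obtain ⟨x₀⟩ := (inferInstance : Nonempty X)
  have hcol : ∀ g : FF, ∃ x : t, g • x₀ ∈ K x := by
    intro g
    have h1 : g • x₀ ∈ ⋃ x ∈ t, K x := by rw [ht]; trivial
    simp only [Set.mem_iUnion] at h1
    obtain ⟨x, hx, h2⟩ := h1
    exact ⟨⟨x, hx⟩, h2⟩
  choose col hcol using hcol
  let ψ : t → Fin (t.card + 1) := fun x => Fin.castSucc (t.equivFin x)
  have hψ : Function.Injective ψ := fun x y hxy =>
    t.equivFin.injective (Fin.castSucc_injective _ hxy)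
  obtain ⟨Ω, hΩ⟩ := h (t.image γ) ε t.card hε
  obtain ⟨g, hg⟩ := hΩ fun g => ψ (col g)
  obtain ⟨g', hg', hlt⟩ := hg (γ (col g)) (Finset.mem_image_of_mem _ (col g).2)
  have h1 : col g' = col g := hψ hg'
  set k : FF := γ (col g) * g with hk
  have h2 : p 1 ((g' : FF) * k⁻¹) < ε := by
    have := hp.right 1 ((g' : FF) * k⁻¹) k
    rw [one_mul, inv_mul_cancel_right] at this
    rw [← this]
    exact hlt
  have h3 := hδ1 (col g) _ (h2.trans_le (hεδ _ (col g).2)) ((g : FF) • x₀) (hcol g)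
  apply h3
  rw [smul_smul, smul_smul, mul_assoc, ← hk, inv_mul_cancel_right, ← h1]
  exact hcol g'

section Converse

variable {p : FF → FF → ℝ} {r : ℕ}

/-- The truncated distance to a colour class. -/
noncomputable def dist1 (p : FF → FF → ℝ) (χ : FF → Fin (r + 1)) (h : FF) (i : Fin (r + 1)) : ℝ :=
  sInf (insert 1 {u | ∃ k, χ k = i ∧ u = p h k})

lemma dist1_bdd (hp : IsPM p) (χ : FF → Fin (r + 1)) (h : FF) (i : Fin (r + 1)) :
    BddBelow (insert 1 {u | ∃ k, χ k = i ∧ u = p h k}) := by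
  refine ⟨0, ?_⟩
  rintro u (rfl | ⟨k, -, rfl⟩)
  · exact zero_le_one
  · exact hp.nonneg h k

lemma dist1_nonneg (hp : IsPM p) (χ : FF → Fin (r + 1)) (h : FF) (i : Fin (r + 1)) :
    0 ≤ dist1 p χ h i := by
  refine le_csInf ⟨1, Set.mem_insert _ _⟩ ?_
  rintro u (rfl | ⟨k, -, rfl⟩)
  · exact zero_le_one
  · exact hp.nonneg h k

lemma dist1_le_one (hp : IsPM p) (χ : FF → Fin (r + 1)) (h : FF) (i : Fin (r + 1)) :
    dist1 p χ h i ≤ 1 := csInf_le (dist1_bdd hp χ h i) (Set.mem_insert _ _)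

lemma dist1_self (hp : IsPM p) (χ : FF → Fin (r + 1)) (h : FF) : dist1 p χ h (χ h) = 0 := by
  refine le_antisymm (csInf_le (dist1_bdd hp χ h _) (Or.inr ⟨h, rfl, (hp.refl h).symm⟩))
    (dist1_nonneg hp χ h _)

lemma dist1_lip (hp : IsPM p) (χ : FF → Fin (r + 1)) (h k : FF) (i : Fin (r + 1)) :
    |dist1 p χ h i - dist1 p χ k i| ≤ p h k := by
  have key : ∀ h k : FF, dist1 p χ h i - p h k ≤ dist1 p χ k i := by
    intro h k
    refine le_csInf ⟨1, Set.mem_insert _ _⟩ ?_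
    rintro u (rfl | ⟨l, hl, rfl⟩)
    · have := dist1_le_one hp χ h i
      have := hp.nonneg h k
      linarith
    · have h1 : dist1 p χ h i ≤ p h l := csInf_le (dist1_bdd hp χ h i) (Or.inr ⟨l, hl, rfl⟩)
      have := hp.tri h k l
      linarith
  rw [abs_le]
  constructor
  · have := key k h
    rw [hp.symm k h] at this
    linarith
  · have := key h k
    linarith

lemma exists_of_dist1_lt {χ : FF → Fin (r + 1)} {h : FF} {i : Fin (r + 1)} {δ : ℝ} (hδ : δ ≤ 1)
    (hlt : dist1 p χ h i < δ) : ∃ k, χ k = i ∧ p h k < δ := by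
  obtain ⟨u, hu, hu'⟩ := exists_lt_of_csInf_lt ⟨1, Set.mem_insert _ _⟩ hlt
  rcases hu with rfl | ⟨k, hk, rfl⟩
  · exact absurd hu' (not_lt.mpr hδ)
  · exact ⟨k, hk, hu'⟩

/-- The right translate of a function. -/
def tr (g : FF) (φ : FF → Fin (r + 1) → ℝ) : FF → Fin (r + 1) → ℝ := fun h => φ (h * g)

lemma continuous_tr (g : FF) : Continuous (tr (r := r) g) :=
  continuous_pi fun h => continuous_apply (h * g)

/-- The orbit of a function. -/
def orb (f : FF → Fin (r + 1) → ℝ) : Set (FF → Fin (r + 1) → ℝ) := Set.range fun g => tr g f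

/-- The closure of the orbit. -/
def Hull (f : FF → Fin (r + 1) → ℝ) : Type := {φ // φ ∈ closure (orb f)}

instance (f : FF → Fin (r + 1) → ℝ) : TopologicalSpace (Hull f) :=
  instTopologicalSpaceSubtype

lemma Hull.inducing (f : FF → Fin (r + 1) → ℝ) :
    IsInducing (fun φ : Hull f => (φ.1 : FF → Fin (r + 1) → ℝ)) := ⟨rfl⟩

lemma cont_eval (h : FF) (i : Fin (r + 1)) :
    Continuous fun φ : FF → Fin (r + 1) → ℝ => φ h i :=
  (continuous_apply i).comp (continuous_apply (A := fun _ : FF => Fin (r + 1) → ℝ) h)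

instance (f : FF → Fin (r + 1) → ℝ) : T2Space (Hull f) :=
  inferInstanceAs (T2Space {φ // φ ∈ closure (orb f)})

lemma tr_mem {f φ : FF → Fin (r + 1) → ℝ} (g : FF) (hφ : φ ∈ closure (orb f)) :
    tr g φ ∈ closure (orb f) := by
  refine map_mem_closure (continuous_tr g) hφ ?_
  rintro _ ⟨k, rfl⟩
  refine ⟨g * k, ?_⟩
  funext h
  simp only [tr, mul_assoc]

instance (f : FF → Fin (r + 1) → ℝ) : MulAction FF (Hull f) where
  smul g φ := ⟨tr g φ.1, tr_mem g φ.2⟩
  one_smul φ := by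
    apply Subtype.ext
    funext h
    change φ.1 (h * 1) = φ.1 h
    rw [mul_one]
  mul_smul g k φ := by
    apply Subtype.ext
    funext h
    change φ.1 (h * (g * k)) = φ.1 (h * g * k)
    rw [mul_assoc]

lemma Hull.smul_val {f : FF → Fin (r + 1) → ℝ} (g : FF) (φ : Hull f) (h : FF) :
    (g • φ).1 h = φ.1 (h * g) := rfl

theorem ram_of_extAm (hp : IsPM p) (hE : ExtAm p) (E : Finset FF) (ε : ℝ) (r : ℕ) (hε : 0 < ε) :
    Ram E ε r p := by
  classical
  by_contra hno
  unfold Ram at hno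
  push Not at hno
  choose c hc using hno
  -- a bad colouring of the whole group
  obtain ⟨χ, hχ⟩ := Finset.rado_selection_subtype (β := fun _ : FF => Fin (r + 1)) c
  have hbad : ∀ h : FF, ∃ g ∈ E, ∀ k : FF, χ k = χ h → ε ≤ p (g * h) k := by
    intro h
    by_contra hcon
    push Not at hcon
    choose! k hk hk' using hcon
    obtain ⟨t, hst, ht⟩ := hχ (insert h (E.image k))
    have hh : h ∈ insert h (E.image k) := Finset.mem_insert_self _ _
    obtain ⟨g, hg, h1⟩ := hc t ⟨h, hst hh⟩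
    have hkg : k g ∈ insert h (E.image k) :=
      Finset.mem_insert_of_mem (Finset.mem_image_of_mem _ hg)
    have h2 := h1 ⟨k g, hst hkg⟩ (by
      have e1 := ht ⟨k g, hkg⟩
      have e2 := ht ⟨h, hh⟩
      exact e1.symm.trans ((hk g hg).trans e2))
    exact absurd h2 (not_le.mpr (hk' g hg))
  set f : FF → Fin (r + 1) → ℝ := dist1 p χ with hf
  -- compactness
  have hQ : IsClosed {φ : FF → Fin (r + 1) → ℝ | ∀ h i, φ h i ∈ Set.Icc (0 : ℝ) 1} := by
    simp only [Set.ofPred_forall]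
    exact isClosed_iInter fun h => isClosed_iInter fun i =>
      isClosed_Icc.preimage (cont_eval h i)
  have hQc : IsCompact {φ : FF → Fin (r + 1) → ℝ | ∀ h i, φ h i ∈ Set.Icc (0 : ℝ) 1} := by
    have h1 : IsCompact (Set.pi Set.univ fun _ : FF => Set.pi Set.univ
        fun _ : Fin (r + 1) => Set.Icc (0 : ℝ) 1) :=
      isCompact_univ_pi fun _ => isCompact_univ_pi fun _ => isCompact_Icc
    refine h1.of_isClosed_subset hQ fun φ hφ => ?_
    simp only [Set.mem_pi, Set.mem_univ, forall_const]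
    exact hφ
  have hsub : closure (orb f) ⊆ {φ : FF → Fin (r + 1) → ℝ | ∀ h i, φ h i ∈ Set.Icc (0 : ℝ) 1} := by
    refine closure_minimal ?_ hQ
    rintro _ ⟨g, rfl⟩ h i
    exact ⟨dist1_nonneg hp χ _ i, dist1_le_one hp χ _ i⟩
  have hcomp : CompactSpace (Hull f) :=
    isCompact_iff_compactSpace.mp (hQc.of_isClosed_subset isClosed_closure hsub)
  have hne : Nonempty (Hull f) := ⟨⟨tr 1 f, subset_closure ⟨1, rfl⟩⟩⟩
  -- the functions are Lipschitz
  have hlip : ∀ φ ∈ closure (orb f), ∀ h k i, |φ h i - φ k i| ≤ p h k := by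
    have hcl : IsClosed {φ : FF → Fin (r + 1) → ℝ | ∀ h k i, |φ h i - φ k i| ≤ p h k} := by
      simp only [Set.ofPred_forall]
      refine isClosed_iInter fun h => isClosed_iInter fun k => isClosed_iInter fun i => ?_
      refine isClosed_le ?_ continuous_const
      exact ((cont_eval h i).sub (cont_eval k i)).abs
    refine fun φ hφ => closure_minimal ?_ hcl hφ
    rintro _ ⟨g, rfl⟩ h k i
    have := dist1_lip hp χ (h * g) (k * g) i
    rw [hp.right] at this
    exact this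
  obtain ⟨φ, hφ⟩ := hE (Hull f) (by
    intro g φ U hU hφU
    have ht : Filter.Tendsto (fun q : FF × Hull f => q.1 • q.2)
        (Filter.comap (fun h => p g h) (𝓝 0) ×ˢ 𝓝 φ) (𝓝 (g • φ)) := by
      rw [(Hull.inducing f).tendsto_nhds_iff]
      refine tendsto_pi_nhds.mpr fun h => tendsto_pi_nhds.mpr fun i => ?_
      rw [tendsto_iff_norm_sub_tendsto_zero]
      have h1 : Filter.Tendsto (fun q : FF × Hull f => p g q.1 + |q.2.1 (h * g) i - φ.1 (h * g) i|)
          (Filter.comap (fun h => p g h) (𝓝 0) ×ˢ 𝓝 φ) (𝓝 0) := by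
        have h2 : Filter.Tendsto (fun q : FF × Hull f => p g q.1)
            (Filter.comap (fun h => p g h) (𝓝 0) ×ˢ 𝓝 φ) (𝓝 0) :=
          Filter.tendsto_comap.comp Filter.tendsto_fst
        have h3 : Continuous fun ψ : Hull f => |ψ.1 (h * g) i - φ.1 (h * g) i| := by
          have h4 : Continuous fun ψ : Hull f => ψ.1 (h * g) i :=
            (cont_eval (h * g) i).comp (Hull.inducing f).continuous
          exact (h4.sub continuous_const).abs
        have h5 := (h3.tendsto φ).comp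
          (Filter.tendsto_snd (f := Filter.comap (fun h => p g h) (𝓝 0)) (g := 𝓝 φ))
        rw [sub_self, abs_zero] at h5
        simpa using h2.add h5
      refine squeeze_zero (fun q => norm_nonneg _) (fun q => ?_) h1
      have h6 := hlip q.2.1 q.2.2 (h * q.1) (h * g) i
      rw [hp.left, hp.symm] at h6
      have h7 : (q.1 • q.2).1 h i - (g • φ).1 h i =
          (q.2.1 (h * q.1) i - q.2.1 (h * g) i) + (q.2.1 (h * g) i - φ.1 (h * g) i) := by
        rw [Hull.smul_val, Hull.smul_val]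
        ring
      rw [Real.norm_eq_abs]
      change |(q.1 • q.2).1 h i - (g • φ).1 h i| ≤ _
      rw [h7]
      exact (abs_add_le _ _).trans (by linarith)
    have hmem := ht (hU.mem_nhds hφU)
    rw [Filter.mem_map, Filter.mem_prod_iff] at hmem
    obtain ⟨A, hA, B, hB, hAB⟩ := hmem
    obtain ⟨S, hS, hSA⟩ := hA
    obtain ⟨ε', hε', hball⟩ := Metric.mem_nhds_iff.mp hS
    obtain ⟨V, hVB, hV, hφV⟩ := mem_nhds_iff.mp hB
    refine ⟨ε', hε', V, hV, hφV, fun h hh ψ hψ => ?_⟩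
    refine hAB (show (h, ψ) ∈ A ×ˢ B from ⟨hSA (hball ?_), hVB hψ⟩)
    rw [Metric.mem_ball, Real.dist_eq, sub_zero, abs_of_nonneg (hp.nonneg g h)]
    exact hh)
  -- the fixed point is a constant function
  have hconst : ∀ g i, φ.1 g i = φ.1 1 i := by
    intro g i
    have h1 := congrArg (fun ψ : Hull f => ψ.1 1 i) (hφ g)
    simp only [Hull.smul_val, one_mul] at h1
    exact h1
  set δ : ℝ := min ε 1 / 2 with hδ
  have hδ0 : 0 < δ := by
    have : 0 < min ε 1 := lt_min hε one_pos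
    rw [hδ]
    linarith
  have hopen : IsOpen {ψ : FF → Fin (r + 1) → ℝ | ∀ g ∈ (insert 1 E : Finset FF), ∀ i,
      |ψ g i - φ.1 g i| < δ} := by
    have h1 : {ψ : FF → Fin (r + 1) → ℝ | ∀ g ∈ (insert 1 E : Finset FF), ∀ i,
        |ψ g i - φ.1 g i| < δ} = ⋂ g ∈ (insert 1 E : Finset FF), ⋂ i,
          {ψ : FF → Fin (r + 1) → ℝ | |ψ g i - φ.1 g i| < δ} := by
      ext ψ
      simp only [Set.mem_ofPred_eq, Set.mem_iInter]
    rw [h1]
    refine isOpen_biInter_finset fun g _ => isOpen_iInter_of_finite fun i => ?_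
    refine isOpen_lt ?_ continuous_const
    exact ((cont_eval g i).sub continuous_const).abs
  obtain ⟨ψ, hψ, ⟨h₀, rfl⟩⟩ := mem_closure_iff.mp φ.2 _ hopen (fun g _ i => by
    rw [sub_self, abs_zero]
    exact hδ0)
  obtain ⟨g, hg, hbad'⟩ := hbad h₀
  have h1 := hψ g (Finset.mem_insert_of_mem hg) (χ h₀)
  have h2 := hψ 1 (Finset.mem_insert_self _ _) (χ h₀)
  rw [hconst g] at h1
  simp only [tr, one_mul, hf] at h1 h2
  rw [dist1_self hp] at h2
  have h3 : dist1 p χ (g * h₀) (χ h₀) < min ε 1 := by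
    rw [abs_lt] at h1 h2
    rw [hδ] at h1 h2
    linarith [h1.2, h2.1]
  obtain ⟨k, hk, hk'⟩ := exists_of_dist1_lt (min_le_right _ _) h3
  exact absurd (hbad' k hk) (not_le.mpr (hk'.trans_le (min_le_left _ _)))

end Converse

end Pool.Agent.Lib.MP_550fd0_al
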