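import Mathlib
import Pool.Agent.Lib.MP_550fd0_al.ExtAm

/-!
# The set of extremely amenable bi-invariant metrics on `F_∞` is a dense `G_δ`
-/

set_option autoImplicit false

open Topology

namespace Pool.Agent.Lib.MP_550fd0_al

lemma Ram_mono {E : Finset FF} {ε ε' : ℝ} {r : ℕ} {q : FF → FF → ℝ} (h : ε ≤ ε')
    (hq : Ram E ε r q) : Ram E ε' r q := by
  obtain ⟨Ω, hΩ⟩ := hq
  refine ⟨Ω, fun c => ?_⟩
  obtain ⟨k, hk⟩ := hΩ c
  refine ⟨k, fun g hg => ?_⟩
  obtain ⟨k', hk', h1⟩ := hk g hg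
  exact ⟨k', hk', h1.trans_le h⟩

theorem extAm_iff {p : FF → FF → ℝ} (hp : IsPM p) :
    ExtAm p ↔ ∀ x : Finset FF × ℕ × ℕ, Ram x.1 (1 / ((x.2.1 : ℝ) + 1)) x.2.2 p := by
  constructor
  · intro h x
    exact ram_of_extAm hp h _ _ _ (by positivity)
  · intro h
    refine extAm_of_ram hp fun E ε r hε => ?_
    obtain ⟨n, hn⟩ := exists_nat_one_div_lt hε
    exact Ram_mono hn.le (h (E, n, r))

/-- The discrete metric. -/
noncomputable def disc (g h : FF) : ℝ := by
  classical
  exact if g = h then 0 else 1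

lemma disc_self (g : FF) : disc g g = 0 := by
  unfold disc; simp

lemma disc_ne {g h : FF} (hne : g ≠ h) : disc g h = 1 := by
  unfold disc; simp [hne]

lemma disc_isPM : IsPM disc := by
  classical
  refine ⟨disc_self, fun g h => ?_, fun g h k => ?_, fun g h k => ?_, fun g h k => ?_⟩
  · by_cases hgh : g = h
    · rw [hgh]
    · rw [disc_ne hgh, disc_ne (Ne.symm hgh)]
  · by_cases hgk : g = k
    · rw [hgk, disc_self]
      unfold disc
      split_ifs <;> norm_num
    · rw [disc_ne hgk]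
      by_cases hgh : g = h
      · rw [hgh, disc_self, disc_ne (fun h' => hgk (hgh.trans h'))]
        norm_num
      · rw [disc_ne hgh]
        unfold disc
        split_ifs <;> norm_num
  · unfold disc
    simp only [mul_right_inj]
  · unfold disc
    simp only [mul_left_inj]

lemma IsPM.add_smul {p q : FF → FF → ℝ} (hp : IsPM p) (hq : IsPM q) {c : ℝ} (hc : 0 ≤ c) :
    IsPM fun g h => p g h + c * q g h := by
  refine ⟨fun g => ?_, fun g h => ?_, fun g h k => ?_, fun g h k => ?_, fun g h k => ?_⟩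
  · simp only [hp.refl, hq.refl, mul_zero, add_zero]
  · simp only []
    rw [hp.symm, hq.symm]
  · have h1 := hp.tri g h k
    have h2 := mul_le_mul_of_nonneg_left (hq.tri g h k) hc
    simp only []
    linarith
  · simp only [hp.left, hq.left]
  · simp only [hp.right, hq.right]

lemma isClosed_IsPM : IsClosed {p : FF → FF → ℝ | IsPM p} := by
  have hev : ∀ g h : FF, Continuous fun p : FF → FF → ℝ => p g h := fun g h =>
    (continuous_apply h).comp (continuous_apply (A := fun _ : FF => FF → ℝ) g)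
  have h1 : {p : FF → FF → ℝ | IsPM p} =
      {p | ∀ g, p g g = 0} ∩ ({p | ∀ g h, p g h = p h g} ∩
        ({p | ∀ g h k, p g k ≤ p g h + p h k} ∩
          ({p | ∀ g h k, p (k * g) (k * h) = p g h} ∩
            {p | ∀ g h k, p (g * k) (h * k) = p g h}))) := by
    ext p
    rfl
  rw [h1]
  simp only [Set.ofPred_forall]
  refine IsClosed.inter ?_ (IsClosed.inter ?_ (IsClosed.inter ?_ (IsClosed.inter ?_ ?_)))
  · exact isClosed_iInter fun g => isClosed_eq (hev g g) continuous_const
  · exact isClosed_iInter fun g => isClosed_iInter fun h => isClosed_eq (hev g h) (hev h g)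
  · exact isClosed_iInter fun g => isClosed_iInter fun h => isClosed_iInter fun k =>
      isClosed_le (hev g k) ((hev g h).add (hev h k))
  · exact isClosed_iInter fun g => isClosed_iInter fun h => isClosed_iInter fun k =>
      isClosed_eq (hev (k * g) (k * h)) (hev g h)
  · exact isClosed_iInter fun g => isClosed_iInter fun h => isClosed_iInter fun k =>
      isClosed_eq (hev (g * k) (h * k)) (hev g h)

/-- The space of bi-invariant pseudometrics. -/
abbrev PM : Type := {p : FF → FF → ℝ | IsPM p}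

instance : PolishSpace PM := isClosed_IsPM.polishSpace

/-- Density from pointwise approximations. -/
lemma dense_of_seq {S : Set PM} (h : ∀ p : PM, ∃ q : ℕ → PM, (∀ n, q n ∈ S) ∧
    ∀ g k : FF, Filter.Tendsto (fun n => (q n).1 g k) Filter.atTop (𝓝 (p.1 g k))) : Dense S := by
  intro p
  obtain ⟨q, hq, hlim⟩ := h p
  refine mem_closure_of_tendsto (f := q) (b := Filter.atTop) ?_ (Filter.Eventually.of_forall hq)
  rw [tendsto_subtype_rng]
  exact tendsto_pi_nhds.mpr fun g => tendsto_pi_nhds.mpr fun k => hlim g k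

theorem dense_ram (E : Finset FF) {ε : ℝ} (hε : 0 < ε) (r : ℕ) :
    Dense {p : PM | Ram E ε r p.1} := by
  classical
  refine dense_of_seq fun p => ?_
  have hp : IsPM p.1 := p.2
  -- a bound for the generators in `E`
  obtain ⟨m₀, hm₀⟩ : ∃ m₀, ∀ g ∈ E, g ∈ Fm m₀ := by
    induction E using Finset.induction_on with
    | empty => exact ⟨0, fun g hg => absurd hg (Finset.notMem_empty g)⟩
    | insert a s ha ih =>
      obtain ⟨m, hm⟩ := ih
      obtain ⟨m', hm'⟩ := exists_mem_Fm a
      refine ⟨max m m', fun g hg => ?_⟩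
      rcases Finset.mem_insert.mp hg with rfl | hg
      · exact Fm_mono (le_max_right _ _) hm'
      · exact Fm_mono (le_max_left _ _) (hm g hg)
  have hex : ∀ n : ℕ, ∃ q, IsPM q ∧ Ram E ε r q ∧ ∀ g ∈ Fm (m₀ + n), ∀ h ∈ Fm (m₀ + n),
      q g h = min (p.1 g h) n := fun n =>
    exists_ram hp E hε r (m₀ + n) (fun g hg => Fm_mono (Nat.le_add_right _ _) (hm₀ g hg))
      (Nat.cast_nonneg n)
  choose q hq1 hq2 hq3 using hex
  refine ⟨fun n => ⟨q n, hq1 n⟩, hq2, fun g k => ?_⟩
  obtain ⟨m, hm⟩ := exists_mem_Fm g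
  obtain ⟨m', hm'⟩ := exists_mem_Fm k
  obtain ⟨T, hT⟩ := exists_nat_ge (p.1 g k)
  refine tendsto_const_nhds.congr' ?_
  filter_upwards [Filter.eventually_ge_atTop (max T (max m m'))] with n hn
  have h1 : T ≤ n := (le_max_left _ _).trans hn
  have h2 : m ≤ m₀ + n := ((le_max_left _ _).trans ((le_max_right _ _).trans hn)).trans
    (Nat.le_add_left _ _)
  have h3 : m' ≤ m₀ + n := ((le_max_right _ _).trans ((le_max_right _ _).trans hn)).trans
    (Nat.le_add_left _ _)
  have h4 : (T : ℝ) ≤ n := by exact_mod_cast h1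
  rw [hq3 n g (Fm_mono h2 hm) k (Fm_mono h3 hm'), min_eq_left (hT.trans h4)]

theorem dense_pos (g : FF) : Dense {p : PM | g = 1 ∨ 0 < p.1 g 1} := by
  refine dense_of_seq fun p => ?_
  have hp : IsPM p.1 := p.2
  refine ⟨fun n => ⟨fun a b => p.1 a b + 1 / ((n : ℝ) + 1) * disc a b,
    hp.add_smul disc_isPM (by positivity)⟩, fun n => ?_, fun a b => ?_⟩
  · by_cases hg : g = 1
    · exact Or.inl hg
    · right
      change 0 < p.1 g 1 + 1 / ((n : ℝ) + 1) * disc g 1
      rw [disc_ne hg]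
      have := hp.nonneg g 1
      positivity
  · have h1 := (tendsto_one_div_add_atTop_nhds_zero_nat (𝕜 := ℝ)).mul_const (disc a b)
    rw [zero_mul] at h1
    simpa using h1.const_add (p.1 a b)

lemma isOpen_ram' (E : Finset FF) (ε : ℝ) (r : ℕ) : IsOpen {p : PM | Ram E ε r p.1} :=
  (isOpen_Ram E ε r).preimage continuous_subtype_val

lemma isOpen_pos (g : FF) : IsOpen {p : PM | g = 1 ∨ 0 < p.1 g 1} := by
  by_cases hg : g = 1
  · simp [hg]
  · simp only [hg, false_or]
    have hev : Continuous fun p : PM => p.1 g 1 :=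
      ((continuous_apply (1 : FF)).comp (continuous_apply (A := fun _ : FF => FF → ℝ) g)).comp
        continuous_subtype_val
    exact isOpen_lt continuous_const hev

theorem dense_all : Dense ((⋂ x : Finset FF × ℕ × ℕ,
    {p : PM | Ram x.1 (1 / ((x.2.1 : ℝ) + 1)) x.2.2 p.1}) ∩
      ⋂ g : FF, {p : PM | g = 1 ∨ 0 < p.1 g 1}) := by
  have h1 := dense_iInter_of_isOpen (X := PM)
    (f := fun x : (Finset FF × ℕ × ℕ) ⊕ FF => match x with
      | Sum.inl x => {p : PM | Ram x.1 (1 / ((x.2.1 : ℝ) + 1)) x.2.2 p.1}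
      | Sum.inr g => {p : PM | g = 1 ∨ 0 < p.1 g 1}) (by
      rintro (x | g)
      · exact isOpen_ram' _ _ _
      · exact isOpen_pos g) (by
      rintro (x | g)
      · exact dense_ram _ (by positivity) _
      · exact dense_pos g)
  rw [Set.iInter_sum] at h1
  exact h1

theorem main_result :
    ∀ A : Set {d : FreeGroup ℕ → FreeGroup ℕ → ℝ //
        (∀ g h, d g h = 0 ↔ g = h) ∧ (∀ g h, d g h = d h g) ∧
        (∀ g h k, d g k ≤ d g h + d h k) ∧
        (∀ g h k, d (k * g) (k * h) = d g h) ∧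
        (∀ g h k, d (g * k) (h * k) = d g h)},
      A = {p | ∀ (X : Type) [TopologicalSpace X] [CompactSpace X] [T2Space X] [Nonempty X]
              [MulAction (FreeGroup ℕ) X],
              (∀ (g : FreeGroup ℕ) (x : X) (U : Set X), IsOpen U → g • x ∈ U →
                ∃ ε > (0 : ℝ), ∃ V : Set X, IsOpen V ∧ x ∈ V ∧
                  ∀ h : FreeGroup ℕ, p.1 g h < ε → ∀ y ∈ V, h • y ∈ U) →
              ∃ x : X, ∀ g : FreeGroup ℕ, g • x = x} →
      IsGδ A ∧ Dense A := by
  intro A hA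
  have hPM : ∀ p : {d : FreeGroup ℕ → FreeGroup ℕ → ℝ //
        (∀ g h, d g h = 0 ↔ g = h) ∧ (∀ g h, d g h = d h g) ∧
        (∀ g h k, d g k ≤ d g h + d h k) ∧
        (∀ g h k, d (k * g) (k * h) = d g h) ∧
        (∀ g h k, d (g * k) (h * k) = d g h)}, IsPM p.1 := fun p =>
    ⟨fun g => (p.2.1 g g).mpr rfl, p.2.2⟩
  have hA' : A = ⋂ x : Finset FF × ℕ × ℕ, Subtype.val ⁻¹'
      {q : FF → FF → ℝ | Ram x.1 (1 / ((x.2.1 : ℝ) + 1)) x.2.2 q} := by
    rw [hA]
    ext p
    rw [Set.mem_iInter]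
    exact extAm_iff (hPM p)
  constructor
  · rw [hA']
    exact IsGδ.iInter_of_isOpen fun x => (isOpen_Ram _ _ _).preimage continuous_subtype_val
  · rw [dense_iff_inter_open]
    rintro U hU ⟨p, hp⟩
    obtain ⟨O, hO, rfl⟩ := isOpen_induced_iff.mp hU
    have hO' : IsOpen {q : PM | q.1 ∈ O} := hO.preimage continuous_subtype_val
    obtain ⟨q, hq, hq1, hq2⟩ := dense_iff_inter_open.mp dense_all _ hO' ⟨⟨p.1, hPM p⟩, hp⟩
    have hqPM : IsPM q.1 := q.2
    have hzero : ∀ g h : FF, q.1 g h = 0 ↔ g = h := by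
      intro g h
      constructor
      · intro h0
        have h1 := hqPM.right g h h⁻¹
        rw [mul_inv_cancel, h0] at h1
        have h2 := Set.mem_iInter.mp hq2 (g * h⁻¹)
        rcases h2 with h2 | h2
        · exact mul_inv_eq_one.mp h2
        · exact absurd h1 h2.ne'
      · rintro rfl
        exact hqPM.refl g
    refine ⟨⟨q.1, hzero, hqPM.2⟩, hq, ?_⟩
    rw [hA']
    exact Set.mem_iInter.mpr fun x => Set.mem_iInter.mp hq1 x

end Pool.Agent.Lib.MP_550fd0_al
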