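import Mathlib
import Pool.Agent.Lib.MP_550fd0_al.Main

/-!
# Extremely amenable metrics with prescribed values on finitely many generators
-/

set_option autoImplicit false

open Topology

namespace Pool.Agent.Lib.MP_550fd0_al.Exact

/-- Only equal elements have distance `0`. -/
def Pos (p : FF → FF → ℝ) : Prop := ∀ g h, p g h = 0 → g = h

/-- `exists_ram` with positivity. -/
theorem exists_ram_pos {p : FF → FF → ℝ} (hp : IsPM p) (E : Finset FF) {ε : ℝ} (hε : 0 < ε)
    (r m : ℕ) (hE : ∀ g ∈ E, g ∈ Fm m) {T : ℝ} (hT : 0 < T) (hpos : Pos p) :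
    ∃ q, IsPM q ∧ Ram E ε r q ∧ Pos q ∧ ∀ g ∈ Fm m, ∀ h ∈ Fm m, q g h = min (p g h) T := by
  classical
  set ℓ : FF → ℝ := fun g => min (p g 1) T with hℓdef
  have hℓ : IsNorm ℓ := hp.isNorm hT.le
  have hℓT : ∀ g, ℓ g ≤ T := fun g => min_le_right _ _
  obtain ⟨N, hN⟩ := exists_nat_gt (T / ε)
  have hN0 : (0 : ℝ) < N := lt_of_le_of_lt (by positivity) hN
  set w : ℝ := T / N with hw
  have hw0 : 0 < w := by positivity
  have hwε : w < ε := by
    rw [hw, div_lt_iff₀ hN0]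
    rw [div_lt_iff₀ hε] at hN
    linarith
  have hTw : T ≤ N * w := by
    rw [hw, mul_div_cancel₀ _ hN0.ne']
  obtain ⟨E', hE'1, hE'E⟩ : ∃ E' : Finset FF, 1 ∈ E' ∧ ∀ g ∈ E, g ∈ E' :=
    ⟨insert 1 E, Finset.mem_insert_self 1 E, fun g hg => Finset.mem_insert_of_mem hg⟩
  obtain ⟨V, ι, _, _, e, hinj, hfor, hram⟩ := exists_hypergraph N {g : FF // g ∈ E'} r
  set lab : {g : FF // g ∈ E'} → FF := Subtype.val with hlab
  set a₀ : {g : FF // g ∈ E'} := ⟨1, hE'1⟩ with ha₀
  have hsol : ∀ J : Finset ι, J.card ≤ N → (Sol e lab a₀ J).Nonempty := by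
    intro J hJ
    obtain ⟨s, hs⟩ := hfor.solve hinj lab J hJ
    refine ⟨s, fun i hi a => ?_⟩
    obtain ⟨t, ht⟩ := hs i hi
    rw [ht a, ht a₀]
    simp [hlab, ha₀]
  have hL : IsNorm (LL ℓ w e lab a₀) := LL_isNorm hℓT hℓ hw0.le
  -- the homomorphism
  let j : V → ℕ := fun v => m + (Fintype.equivFin V v).1
  have hj : Function.Injective j := by
    intro v v' h
    have h1 : (Fintype.equivFin V v).1 = (Fintype.equivFin V v').1 := Nat.add_left_cancel h
    exact (Fintype.equivFin V).injective (Fin.ext h1)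
  let θ : FF →* ((V → FF) → FF) := FreeGroup.lift fun i =>
    if h : ∃ v, j v = i then (fun s => s h.choose) else fun _ => FreeGroup.of i
  have hθj : ∀ v, θ (FreeGroup.of (j v)) = fun s => s v := by
    intro v
    have h : ∃ v', j v' = j v := ⟨v, rfl⟩
    rw [FreeGroup.lift_apply_of, dif_pos h]
    funext s
    rw [hj h.choose_spec]
  have hθm : ∀ g ∈ Fm m, θ g = fun _ => g := by
    let c : FF →* ((V → FF) → FF) :=
      { toFun := fun g _ => g
        map_one' := rfl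
        map_mul' := fun _ _ => rfl }
    have h1 : Fm m ≤ MonoidHom.eqLocus θ c := by
      refine (Subgroup.closure_le _).mpr ?_
      rintro _ ⟨i, hi, rfl⟩
      change θ (FreeGroup.of i) = c (FreeGroup.of i)
      rw [FreeGroup.lift_apply_of, dif_neg]
      · rfl
      · rintro ⟨v, hv⟩
        have h2 : m + (Fintype.equivFin V v).1 = i := hv
        have h3 : i < m := hi
        omega
    exact fun g hg => h1 hg
  have hθid : ∀ g : FF, θ g (fun v => FreeGroup.of (j v)) = g := by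
    have h1 : (Pi.evalMonoidHom (fun _ : V → FF => FF) (fun v => FreeGroup.of (j v))).comp θ =
        MonoidHom.id FF := by
      refine FreeGroup.ext_hom _ _ fun i => ?_
      rw [MonoidHom.comp_apply, MonoidHom.id_apply, Pi.evalMonoidHom_apply,
        FreeGroup.lift_apply_of]
      by_cases h : ∃ v, j v = i
      · rw [dif_pos h]
        exact congrArg FreeGroup.of h.choose_spec
      · rw [dif_neg h]
    intro g
    exact DFunLike.congr_fun h1 g
  refine ⟨fun g h => LL ℓ w e lab a₀ ((θ g)⁻¹ * θ h), IsPM.of_norm hL θ, ?_, ?_, ?_⟩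
  · refine ⟨Finset.univ.image fun v => FreeGroup.of (j v), fun c => ?_⟩
    have hmem : ∀ v, FreeGroup.of (j v) ∈ Finset.univ.image fun v => FreeGroup.of (j v) :=
      fun v => Finset.mem_image_of_mem _ (Finset.mem_univ v)
    obtain ⟨i, hi⟩ := hram fun v => c ⟨FreeGroup.of (j v), hmem v⟩
    refine ⟨⟨FreeGroup.of (j (e i a₀)), hmem _⟩, fun g hg => ?_⟩
    set a : {g : FF // g ∈ E'} := ⟨g, hE'E g hg⟩ with ha
    refine ⟨⟨FreeGroup.of (j (e i a)), hmem _⟩, hi a a₀, ?_⟩
    refine lt_of_le_of_lt (LL_small hw0.le hℓ i fun s hs => ?_) hwε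
    have h1 : s (e i a) = g * s (e i a₀) := hs i (Finset.mem_singleton_self i) a
    rw [map_mul, hθm g (hE g hg), hθj, hθj]
    change (g * s (e i a₀))⁻¹ * s (e i a) = 1
    rw [h1, inv_mul_cancel]
  · intro g h h0
    simp only [] at h0
    by_contra hne
    have hx : (0 : ℝ) < ℓ (g⁻¹ * h) := by
      refine lt_min ?_ hT
      refine lt_of_le_of_ne (hp.nonneg _ _) fun h1 => hne ?_
      exact (inv_mul_eq_one.mp (hpos _ _ h1.symm))
    have hlb : min w (ℓ (g⁻¹ * h)) ≤ LL ℓ w e lab a₀ ((θ g)⁻¹ * θ h) := by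
      refine le_csInf (Bd_nonempty hℓT hℓ _) ?_
      rintro u ⟨J, t, ht, hs, hu⟩
      rcases J.eq_empty_or_nonempty with rfl | hJ
      · have h1 := hs (fun v => FreeGroup.of (j v)) (by
          intro i hi
          exact absurd hi (Finset.notMem_empty i))
        have h2 : ((θ g)⁻¹ * θ h) (fun v => FreeGroup.of (j v)) = g⁻¹ * h := by
          rw [Pi.mul_apply, Pi.inv_apply, hθid, hθid]
        rw [h2] at h1
        simp only [Finset.card_empty, Nat.cast_zero, zero_mul, zero_add] at hu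
        exact (min_le_right _ _).trans (h1.trans hu)
      · have h1 : (1 : ℝ) ≤ J.card := by exact_mod_cast hJ.card_pos
        refine (min_le_left _ _).trans ?_
        nlinarith
    rw [h0] at hlb
    exact absurd hlb (not_le.mpr (lt_min hw0 hx))
  · intro g hg h hh
    simp only []
    rw [hθm g hg, hθm h hh]
    have h1 : ((fun _ => g : (V → FF) → FF)⁻¹ * fun _ => h) = fun _ => g⁻¹ * h := rfl
    rw [h1, LL_const hℓT hℓ hTw hw0.le hsol]
    have h2 := hp.left (g⁻¹ * h) 1 g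
    rw [mul_inv_cancel_left, mul_one] at h2
    simp only [hℓdef]
    rw [← h2, hp.symm]

lemma isPM_min {p : FF → FF → ℝ} (hp : IsPM p) {T : ℝ} (hT : 0 ≤ T) :
    IsPM fun g h => min (p g h) T := by
  refine ⟨fun g => ?_, fun g h => ?_, fun g h k => ?_, fun g h k => ?_, fun g h k => ?_⟩
  · simp only [hp.refl]
    exact min_eq_left hT
  · simp only []
    rw [hp.symm]
  · simp only []
    have h1 := hp.tri g h k
    have h3 := hp.nonneg g h
    have h4 := hp.nonneg h k
    rcases le_total (p g h) T with h5 | h5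
    · rcases le_total (p h k) T with h6 | h6
      · rw [min_eq_left h5, min_eq_left h6]
        exact (min_le_left _ _).trans h1
      · rw [min_eq_left h5, min_eq_right h6]
        exact (min_le_right _ _).trans (by linarith)
    · rw [min_eq_right h5]
      exact (min_le_right _ _).trans (by linarith [le_min h4 hT])
  · simp only [hp.left]
  · simp only [hp.right]

lemma pos_min {p : FF → FF → ℝ} (hp : Pos p) {T : ℝ} (hT : 0 < T) :
    Pos fun g h => min (p g h) T := by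
  intro g h h0
  simp only [] at h0
  rcases le_total (p g h) T with h1 | h1
  · rw [min_eq_left h1] at h0
    exact hp g h h0
  · rw [min_eq_right h1] at h0
    exact absurd h0 hT.ne'

/-- The Ramsey property with the finite set `Ω`. -/
def RamOn (Ω E : Finset FF) (ε : ℝ) (r : ℕ) (q : FF → FF → ℝ) : Prop :=
  ∀ c : Ω → Fin (r + 1), ∃ h : Ω, ∀ g ∈ E, ∃ h' : Ω, c h' = c h ∧ q (g * h) h' < ε

lemma exists_Fm (S : Finset FF) : ∃ m, ∀ g ∈ S, g ∈ Fm m := by
  classical
  induction S using Finset.induction_on with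
  | empty => exact ⟨0, fun g hg => absurd hg (Finset.notMem_empty g)⟩
  | insert a s ha ih =>
    obtain ⟨m, hm⟩ := ih
    obtain ⟨m', hm'⟩ := exists_mem_Fm a
    refine ⟨max m m', fun g hg => ?_⟩
    rcases Finset.mem_insert.mp hg with rfl | hg
    · exact Fm_mono (le_max_right _ _) hm'
    · exact Fm_mono (le_max_left _ _) (hm g hg)

/-- A state of the construction. -/
structure St (T : ℝ) : Type where
  p : FF → FF → ℝ
  m : ℕ
  pm : IsPM p
  pos : Pos p
  le : ∀ g h, p g h ≤ T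

theorem step {T : ℝ} (hT : 0 < T) (s : St T) (x : Finset FF × ℕ × ℕ) :
    ∃ s' : St T, s.m + 1 ≤ s'.m ∧ (∀ g ∈ Fm s.m, ∀ h ∈ Fm s.m, s'.p g h = s.p g h) ∧
      ∃ Ω : Finset FF, (∀ h ∈ Ω, h ∈ Fm s'.m) ∧ (∀ g ∈ x.1, ∀ h ∈ Ω, g * h ∈ Fm s'.m) ∧
        RamOn Ω x.1 (1 / ((x.2.1 : ℝ) + 1)) x.2.2 s'.p := by
  classical
  obtain ⟨m₀, hm₀⟩ := exists_Fm x.1
  obtain ⟨q, hq, ⟨Ω, hΩ⟩, hqp, hqe⟩ := exists_ram_pos s.pm x.1
    (ε := 1 / ((x.2.1 : ℝ) + 1)) (by positivity) x.2.2 (max s.m m₀)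
    (fun g hg => Fm_mono (le_max_right _ _) (hm₀ g hg)) hT s.pos
  obtain ⟨m₁, hm₁⟩ := exists_Fm (Ω ∪ (x.1 ×ˢ Ω).image fun y => y.1 * y.2)
  refine ⟨⟨fun g h => min (q g h) T, max (s.m + 1) m₁, isPM_min hq hT.le, pos_min hqp hT,
    fun g h => min_le_right _ _⟩, le_max_left _ _, fun g hg h hh => ?_, Ω, fun h hh => ?_,
    fun g hg h hh => ?_, fun c => ?_⟩
  · change min (q g h) T = s.p g h
    rw [hqe g (Fm_mono (le_max_left _ _) hg) h (Fm_mono (le_max_left _ _) hh),
      min_eq_left (s.le g h), min_eq_left (s.le g h)]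
  · exact Fm_mono (le_max_right _ _) (hm₁ h (Finset.mem_union_left _ hh))
  · refine Fm_mono (le_max_right _ _) (hm₁ _ (Finset.mem_union_right _ ?_))
    exact Finset.mem_image.mpr ⟨(g, h), Finset.mem_product.mpr ⟨hg, hh⟩, rfl⟩
  · obtain ⟨h, hh⟩ := hΩ c
    refine ⟨h, fun g hg => ?_⟩
    obtain ⟨h', h1, h2⟩ := hh g hg
    exact ⟨h', h1, (min_le_left _ _).trans_lt h2⟩

/-- Every bi-invariant metric coincides, up to truncation, on the subgroup generated by the first
`m` generators with one that has all Ramsey properties. -/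
theorem exists_exact {p : FF → FF → ℝ} (hp : IsPM p) (hpos : Pos p) (m : ℕ) {T : ℝ}
    (hT : 0 < T) :
    ∃ q, IsPM q ∧ Pos q ∧ (∀ x : Finset FF × ℕ × ℕ, Ram x.1 (1 / ((x.2.1 : ℝ) + 1)) x.2.2 q) ∧
      ∀ g ∈ Fm m, ∀ h ∈ Fm m, q g h = min (p g h) T := by
  classical
  obtain ⟨f, hf⟩ := exists_surjective_nat (Finset FF × ℕ × ℕ)
  choose next hnext1 hnext2 Ω hΩ1 hΩ2 hΩ3 using fun (s : St T) x => step hT s x
  let s₀ : St T := ⟨fun g h => min (p g h) T, m, isPM_min hp hT.le, pos_min hpos hT,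
    fun g h => min_le_right _ _⟩
  let s : ℕ → St T := fun n => Nat.rec s₀ (fun k t => next t (f k)) n
  have hs0 : s 0 = s₀ := rfl
  have hsS : ∀ n, s (n + 1) = next (s n) (f n) := fun n => rfl
  have hmono1 : ∀ n, (s n).m + 1 ≤ (s (n + 1)).m := fun n => by
    rw [hsS]
    exact hnext1 _ _
  have hmono : Monotone fun n => (s n).m := monotone_nat_of_le_succ fun n => by
    have := hmono1 n
    change (s n).m ≤ (s (n + 1)).m
    omega
  have hge : ∀ n, n ≤ (s n).m := by
    intro n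
    induction n with
    | zero => exact Nat.zero_le _
    | succ n ih => exact (Nat.succ_le_succ ih).trans (hmono1 n)
  have hstab : ∀ n k, n ≤ k → ∀ g ∈ Fm (s n).m, ∀ h ∈ Fm (s n).m, (s k).p g h = (s n).p g h := by
    intro n k hnk g hg h hh
    induction k, hnk using Nat.le_induction with
    | base => rfl
    | succ k hnk ih =>
      rw [hsS, hnext2 (s k) (f k) g (Fm_mono (hmono hnk) hg) h (Fm_mono (hmono hnk) hh), ih]
  have hex : ∀ g h : FF, ∃ n, g ∈ Fm (s n).m ∧ h ∈ Fm (s n).m := by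
    intro g h
    obtain ⟨a, ha⟩ := exists_mem_Fm g
    obtain ⟨b, hb⟩ := exists_mem_Fm h
    exact ⟨max a b, Fm_mono ((le_max_left _ _).trans (hge _)) ha,
      Fm_mono ((le_max_right _ _).trans (hge _)) hb⟩
  choose ν hν1 hν2 using hex
  let q : FF → FF → ℝ := fun g h => (s (ν g h)).p g h
  have hq : ∀ n, ∀ g ∈ Fm (s n).m, ∀ h ∈ Fm (s n).m, q g h = (s n).p g h := by
    intro n g hg h hh
    have h1 := hstab n (max n (ν g h)) (le_max_left _ _) g hg h hh
    have h2 := hstab (ν g h) (max n (ν g h)) (le_max_right _ _) g (hν1 g h) h (hν2 g h)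
    exact h2.symm.trans h1
  have hex3 : ∀ g h k : FF, ∃ n, g ∈ Fm (s n).m ∧ h ∈ Fm (s n).m ∧ k ∈ Fm (s n).m := by
    intro g h k
    obtain ⟨c, hc⟩ := exists_mem_Fm k
    refine ⟨max (ν g h) c, Fm_mono (hmono (le_max_left _ _)) (hν1 g h),
      Fm_mono (hmono (le_max_left _ _)) (hν2 g h), Fm_mono ((le_max_right _ _).trans (hge _)) hc⟩
  refine ⟨q, ⟨fun g => ?_, fun g h => ?_, fun g h k => ?_, fun g h k => ?_, fun g h k => ?_⟩,
    fun g h h0 => ?_, fun x => ?_, fun g hg h hh => ?_⟩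
  · exact (s (ν g g)).pm.refl g
  · obtain ⟨n, hg, hh, -⟩ := hex3 g h 1
    rw [hq n g hg h hh, hq n h hh g hg]
    exact (s n).pm.symm g h
  · obtain ⟨n, hg, hh, hk⟩ := hex3 g h k
    rw [hq n g hg k hk, hq n g hg h hh, hq n h hh k hk]
    exact (s n).pm.tri g h k
  · obtain ⟨n, hg, hh, hk⟩ := hex3 g h k
    rw [hq n g hg h hh, hq n _ (mul_mem hk hg) _ (mul_mem hk hh)]
    exact (s n).pm.left g h k
  · obtain ⟨n, hg, hh, hk⟩ := hex3 g h k
    rw [hq n g hg h hh, hq n _ (mul_mem hg hk) _ (mul_mem hh hk)]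
    exact (s n).pm.right g h k
  · exact (s (ν g h)).pos g h h0
  · obtain ⟨n, rfl⟩ := hf x
    refine ⟨Ω (s n) (f n), fun c => ?_⟩
    obtain ⟨h, hh⟩ := hΩ3 (s n) (f n) c
    refine ⟨h, fun g hg => ?_⟩
    obtain ⟨h', h1, h2⟩ := hh g hg
    refine ⟨h', h1, ?_⟩
    rw [hq (n + 1) _ (hΩ2 (s n) (f n) g hg h h.2) _ (hΩ1 (s n) (f n) h' h'.2)]
    exact h2
  · exact hq 0 g hg h hh

end Pool.Agent.Lib.MP_550fd0_al.Exact
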