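import Mathlib
import Pool.Agent.Lib.MP_550fd0_al.Main

/-!
# Extreme amenability for compact spaces in an arbitrary universe
-/

set_option autoImplicit false

open Topology

namespace Pool.Agent.Lib.MP_550fd0_al.Univ

universe u

/-- Extreme amenability of the free group with the topology of the pseudometric space `P`. -/
def EA (P : PseudoMetricSpace FF) : Prop :=
  ∀ (X : Type u) [TopologicalSpace X] [CompactSpace X] [T2Space X] [Nonempty X] [MulAction FF X],
    @ContinuousSMul FF X _ P.toUniformSpace.toTopologicalSpace _ →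
    ∃ x : X, ∀ g : FF, g • x = x

/-- The `ε`-form of the continuity of an action. -/
def Cts (p : FF → FF → ℝ) (X : Type u) [TopologicalSpace X] [MulAction FF X] : Prop :=
  ∀ (g : FF) (x : X) (U : Set X), IsOpen U → g • x ∈ U →
    ∃ ε > (0 : ℝ), ∃ V : Set X, IsOpen V ∧ x ∈ V ∧
      ∀ h : FF, p g h < ε → ∀ y ∈ V, h • y ∈ U

theorem cts_iff (P : PseudoMetricSpace FF) (X : Type u) [TopologicalSpace X] [MulAction FF X] :
    @ContinuousSMul FF X _ P.toUniformSpace.toTopologicalSpace _ ↔ Cts P.dist X := by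
  let _ := P
  constructor
  · intro hc g x U hU hgx
    have h1 : Continuous fun q : FF × X => q.1 • q.2 := hc.continuous_smul
    have h2 := h1.continuousAt.preimage_mem_nhds (x := (g, x)) (hU.mem_nhds hgx)
    rw [nhds_prod_eq, Filter.mem_prod_iff] at h2
    obtain ⟨A, hA, B, hB, hAB⟩ := h2
    obtain ⟨ε, hε, hball⟩ := Metric.mem_nhds_iff.mp hA
    obtain ⟨V, hVB, hV, hxV⟩ := mem_nhds_iff.mp hB
    refine ⟨ε, hε, V, hV, hxV, fun h hh y hy => ?_⟩
    refine hAB (show (h, y) ∈ A ×ˢ B from ⟨hball ?_, hVB hy⟩)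
    rw [Metric.mem_ball, dist_comm]
    exact hh
  · intro hc
    refine ⟨continuous_iff_continuousAt.mpr fun q => ?_⟩
    obtain ⟨g, x⟩ := q
    rw [ContinuousAt, tendsto_nhds]
    intro U hU hgx
    obtain ⟨ε, hε, V, hV, hxV, h1⟩ := hc g x U hU hgx
    rw [nhds_prod_eq]
    refine Filter.mem_of_superset (Filter.prod_mem_prod (Metric.ball_mem_nhds g hε)
      (hV.mem_nhds hxV)) ?_
    rintro ⟨h, y⟩ ⟨hh, hy⟩
    refine h1 h ?_ y hy
    rw [Metric.mem_ball, dist_comm] at hh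
    exact hh

/-- `extAm_of_ram` in an arbitrary universe. -/
theorem fixed_of_ram {p : FF → FF → ℝ} (hp : IsPM p)
    (h : ∀ (E : Finset FF) (ε : ℝ) (r : ℕ), 0 < ε → Ram E ε r p)
    (X : Type u) [TopologicalSpace X] [CompactSpace X] [T2Space X] [Nonempty X] [MulAction FF X]
    (hc : Cts p X) : ∃ x : X, ∀ g : FF, g • x = x := by
  classical
  by_contra hno
  push Not at hno
  have hcont : ∀ g : FF, Continuous fun x : X => g • x := by
    intro g
    rw [continuous_iff_continuousAt]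
    intro x
    rw [ContinuousAt, tendsto_nhds]
    intro U hU hx
    obtain ⟨ε, hε, V, hV, hxV, h1⟩ := hc g x U hU hx
    exact Filter.mem_of_superset (hV.mem_nhds hxV) fun y hy => h1 g (by rw [hp.refl]; exact hε) y hy
  choose γ hγ using hno
  have hK : ∀ x : X, ∃ K ∈ 𝓝 x, IsClosed K ∧ ∀ y ∈ K, γ x • y ∉ K := by
    intro x
    obtain ⟨A, B, hA, hB, hxA, hxB, hAB⟩ := t2_separation (hγ x).symm
    have hV : A ∩ (fun y => γ x • y) ⁻¹' B ∈ 𝓝 x :=
      (hA.inter (hB.preimage (hcont (γ x)))).mem_nhds ⟨hxA, hxB⟩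
    obtain ⟨K, hK, hKc, hKV⟩ := exists_mem_nhds_isClosed_subset hV
    refine ⟨K, hK, hKc, fun y hy hy' => ?_⟩
    exact Set.disjoint_left.mp hAB (hKV hy').1 (hKV hy).2
  choose K hKn hKc hKd using hK
  obtain ⟨t, ht⟩ := CompactSpace.elim_nhds_subcover K hKn
  -- a uniform `ε`
  have hδ : ∀ x : X, ∃ δ > 0, ∀ u : FF, p 1 u < δ → ∀ y ∈ K x, u • γ x • y ∉ K x := by
    intro x
    have hcomp : IsCompact ((fun y => γ x • y) '' K x) := (hKc x).isCompact.image (hcont (γ x))
    have h1 : ∃ δ > 0, ∀ u : FF, p 1 u < δ → ∀ z ∈ (fun y => γ x • y) '' K x, u • z ∉ K x := by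
      refine hcomp.induction_on (p := fun S => ∃ δ > 0, ∀ u : FF, p 1 u < δ → ∀ z ∈ S, u • z ∉ K x)
        ⟨1, one_pos, fun u _ z hz => absurd hz (Set.notMem_empty z)⟩ ?_ ?_ ?_
      · rintro S S' hSS' ⟨δ, hδ, h2⟩
        exact ⟨δ, hδ, fun u hu z hz => h2 u hu z (hSS' hz)⟩
      · rintro S S' ⟨δ, hδ, h2⟩ ⟨δ', hδ', h2'⟩
        refine ⟨min δ δ', lt_min hδ hδ', fun u hu z hz => ?_⟩
        rcases hz with hz | hz
        · exact h2 u (hu.trans_le (min_le_left _ _)) z hz
        · exact h2' u (hu.trans_le (min_le_right _ _)) z hz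
      · rintro _ ⟨y, hy, rfl⟩
        have h3 : (1 : FF) • γ x • y ∈ (K x)ᶜ := by
          rw [one_smul]
          exact hKd x y hy
        obtain ⟨δ, hδ, V, hV, hyV, h4⟩ := hc 1 (γ x • y) (K x)ᶜ (hKc x).isOpen_compl h3
        exact ⟨V, mem_nhdsWithin_of_mem_nhds (hV.mem_nhds hyV), δ, hδ,
          fun u hu z hz => h4 u hu z hz⟩
    obtain ⟨δ, hδ, h2⟩ := h1
    exact ⟨δ, hδ, fun u hu y hy => h2 u hu _ ⟨y, hy, rfl⟩⟩
  choose δ hδ0 hδ1 using hδ
  obtain ⟨ε, hε, hεδ⟩ := exists_pos_le t δ fun x _ => hδ0 x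
  -- the colouring
  obtain ⟨x₀⟩ := (inferInstance : Nonempty X)
  have hcol : ∀ g : FF, ∃ x : t, g • x₀ ∈ K x := by
    intro g
    have h1 : g • x₀ ∈ ⋃ x ∈ t, K x := by rw [ht]; trivial
    simp only [Set.mem_iUnion] at h1
    obtain ⟨x, hx, h2⟩ := h1
    exact ⟨⟨x, hx⟩, h2⟩
  choose col hcol using hcol
  let ψ : t → Fin (t.card + 1) := fun x => Fin.castSucc (t.equivFin x)
  have hψ : Function.Injective ψ := fun x y hxy =>
    t.equivFin.injective (Fin.castSucc_injective _ hxy)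
  obtain ⟨Ω, hΩ⟩ := h (t.image γ) ε t.card hε
  obtain ⟨g, hg⟩ := hΩ fun g => ψ (col g)
  obtain ⟨g', hg', hlt⟩ := hg (γ (col g)) (Finset.mem_image_of_mem _ (col g).2)
  have h1 : col g' = col g := hψ hg'
  set k : FF := γ (col g) * g with hk
  have h2 : p 1 ((g' : FF) * k⁻¹) < ε := by
    have := hp.right 1 ((g' : FF) * k⁻¹) k
    rw [one_mul, inv_mul_cancel_right] at this
    rw [← this]
    exact hlt
  have h3 := hδ1 (col g) _ (h2.trans_le (hεδ _ (col g).2)) ((g : FF) • x₀) (hcol g)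
  apply h3
  rw [smul_smul, smul_smul, mul_assoc, ← hk, inv_mul_cancel_right, ← h1]
  exact hcol g'

/-- Extreme amenability does not depend on the universe, and is equivalent to the Ramsey
property. -/
theorem ea_iff (P : PseudoMetricSpace FF) (hp : IsPM P.dist) :
    EA.{u} P ↔ ∀ x : Finset FF × ℕ × ℕ, Ram x.1 (1 / ((x.2.1 : ℝ) + 1)) x.2.2 P.dist := by
  constructor
  · intro h
    refine (extAm_iff hp).mp ?_
    intro X _ _ _ _ _ hc
    have hc' : Cts P.dist (ULift.{u} X) := by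
      intro g x U hU hgx
      obtain ⟨ε, hε, V, hV, hxV, h1⟩ := hc g x.down (ULift.up ⁻¹' U)
        (hU.preimage continuous_uliftUp) hgx
      exact ⟨ε, hε, ULift.down ⁻¹' V, hV.preimage continuous_uliftDown, hxV,
        fun k hk y hy => h1 k hk y.down hy⟩
    obtain ⟨x, hx⟩ := h (ULift.{u} X) ((cts_iff P _).mpr hc')
    exact ⟨x.down, fun g => congrArg ULift.down (hx g)⟩
  · intro h X _ _ _ _ _ hc
    refine fixed_of_ram hp (fun E ε r hε => ?_) X ((cts_iff P X).mp hc)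
    obtain ⟨n, hn⟩ := exists_nat_one_div_lt hε
    exact Ram_mono hn.le (h (E, n, r))

end Pool.Agent.Lib.MP_550fd0_al.Univ
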